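import Pool.Agent.T2H58.LU.Exp

/-! Sums of exponentials with integer bases: the local property, uniformly in the coefficients. -/

set_option autoImplicit false

namespace Pool.Agent.T2H58.LU

open Finset Pool.Agent.T2H58.LR Polynomial

/-- linear combination -/
theorem lincomb {κ : ℕ} (w D : Fin κ → ℤ) {M : ℤ} (h : ∀ j < κ, M ∣ ∑ i, w i * D i ^ (j + 1)) (r : ℤ[X])
    (hr : r.degree < κ) : M ∣ ∑ i, w i * (D i * r.eval (D i)) := by
  have h1 : ∑ i, w i * (D i * r.eval (D i)) = ∑ j ∈ range κ, r.coeff j * ∑ i, w i * D i ^ (j + 1) := by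
    have h2 : ∀ i, r.eval (D i) = ∑ j ∈ range κ, r.coeff j * D i ^ j := by
      intro i
      rw [eval_eq_sum_range' (n := κ)]
      rcases Nat.eq_zero_or_pos κ with h0 | h0
      · exact absurd i.2 (by omega)
      · by_cases hr0 : r = 0
        · subst hr0; simpa using h0
        · exact (natDegree_lt_iff_degree_lt hr0).2 hr
    simp_rw [h2, mul_sum]
    rw [sum_comm]
    apply sum_congr rfl
    intro j _
    apply sum_congr rfl
    intro i _
    ring
  rw [h1]
  exact dvd_sum fun j hj => Dvd.dvd.mul_left (h j (mem_range.1 hj)) _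

theorem all_dvd {κ : ℕ} (w D : Fin κ → ℤ) {M : ℤ} (h : ∀ j < κ, M ∣ ∑ i, w i * D i ^ (j + 1)) (k : ℕ) :
    M ∣ ∑ i, w i * D i ^ (k + 1) := by
  classical
  obtain ⟨P, hP⟩ : ∃ P : ℤ[X], P = ∏ i : Fin κ, (X - C (D i)) := ⟨_, rfl⟩
  have hPm : P.Monic := by rw [hP]; exact monic_prod_of_monic _ _ fun i _ => monic_X_sub_C _
  have hPd : P.natDegree = κ := by
    rw [hP, natDegree_prod_of_monic _ _ fun i _ => monic_X_sub_C _, sum_congr rfl fun i _ => natDegree_X_sub_C _,
      sum_const, card_univ, Fintype.card_fin, smul_eq_mul, mul_one]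
  have hP0 : ∀ i, P.eval (D i) = 0 := by
    intro i
    rw [hP, eval_prod]
    exact prod_eq_zero (mem_univ i) (by simp)
  have h1 := lincomb w D h ((X : ℤ[X]) ^ k %ₘ P) (by
    have := degree_modByMonic_lt ((X : ℤ[X]) ^ k) hPm
    rwa [degree_eq_natDegree hPm.ne_zero, hPd] at this)
  have h2 : ∀ i, ((X : ℤ[X]) ^ k %ₘ P).eval (D i) = D i ^ k := by
    intro i
    have h3 := congrArg (eval (D i)) (modByMonic_add_div ((X : ℤ[X]) ^ k) P)
    rw [eval_add, eval_mul, hP0, zero_mul, add_zero, eval_pow, eval_X] at h3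
    exact h3
  simp_rw [h2] at h1
  have h3 : ∑ i, w i * D i ^ (k + 1) = ∑ i, w i * (D i * D i ^ k) := by
    apply sum_congr rfl
    intro i _
    rw [pow_succ']
  rw [h3]
  exact h1

theorem vdm {κ : ℕ} (w D : Fin κ → ℤ) {M : ℤ} (h : ∀ j < κ, M ∣ ∑ i, w i * D i ^ (j + 1)) (i0 : Fin κ) :
    M ∣ w i0 * (D i0 * ∏ j ∈ univ.erase i0, (D i0 - D j)) := by
  classical
  obtain ⟨P, hP⟩ : ∃ P : ℤ[X], P = ∏ j ∈ univ.erase i0, (X - C (D j)) := ⟨_, rfl⟩
  have hPm : P.Monic := by rw [hP]; exact monic_prod_of_monic _ _ fun i _ => monic_X_sub_C _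
  have hPd : P.natDegree = κ - 1 := by
    rw [hP, natDegree_prod_of_monic _ _ fun i _ => monic_X_sub_C _, sum_congr rfl fun i _ => natDegree_X_sub_C _,
      sum_const, card_erase_of_mem (mem_univ _), card_univ, Fintype.card_fin, smul_eq_mul, mul_one]
  have h1 := lincomb w D h P (by
    rw [degree_eq_natDegree hPm.ne_zero, hPd]
    have := i0.2
    exact_mod_cast (by omega : κ - 1 < κ))
  have h2 : ∑ i, w i * (D i * P.eval (D i)) = w i0 * (D i0 * ∏ j ∈ univ.erase i0, (D i0 - D j)) := by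
    rw [Finset.sum_eq_single i0]
    · rw [hP, eval_prod]
      simp
    · intro i _ hi
      have : P.eval (D i) = 0 := by
        rw [hP, eval_prod]
        exact prod_eq_zero (mem_erase.2 ⟨hi, mem_univ i⟩) (by simp)
      rw [this]; ring
    · intro h; exact absurd (mem_univ _) h
  rwa [h2] at h1

theorem loc_exp (p : ℕ) [hp : Fact p.Prime] {κ : ℕ} (a : Fin κ → ℤ) (ha : ∀ i, ¬ (p : ℤ) ∣ a i) (ha2 : ∀ i, 2 ≤ |a i|)
    (hinj : ∀ i j, i ≠ j → |a i| ≠ |a j|) : ∃ L c : ℕ, 1 ≤ L ∧ 1 ≤ c ∧ ∀ b : Fin κ → ℤ, (∃ i, ¬ (p : ℤ) ∣ b i) →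
      LocU p L c 1 (fun n => ∑ i, b i * a i ^ n) := by
  classical
  have hpr : Prime (p : ℤ) := Nat.prime_iff_prime_int.1 hp.out
  obtain ⟨L, hL⟩ : ∃ L, L = Nat.totient (p ^ 2) := ⟨_, rfl⟩
  have hL1 : 1 ≤ L := by rw [hL]; exact Nat.totient_pos.2 (Nat.pow_pos hp.out.pos)
  have hdvd : ∀ i, (p : ℤ) ^ 2 ∣ a i ^ L - 1 := by
    intro i
    have h1 : IsCoprime (a i) (p : ℤ) := (hpr.coprime_iff_not_dvd.2 (ha i)).symm
    have h2 : IsCoprime (a i) (((p ^ 2 : ℕ) : ℤ)) := by push_cast; exact h1.pow_right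
    obtain ⟨u, hu⟩ : ∃ u : (ZMod (p ^ 2))ˣ, (u : ZMod (p ^ 2)) = ((a i : ℤ) : ZMod (p ^ 2)) := by
      have h3 : IsUnit ((a i : ℤ) : ZMod (p ^ 2)) := by
        obtain ⟨v, w, hvw⟩ := h2
        have h4 := congrArg (Int.cast : ℤ → ZMod (p ^ 2)) hvw
        push_cast at h4
        have h5 : ((p : ZMod (p ^ 2))) ^ 2 = 0 := by
          have := ZMod.natCast_self (p ^ 2)
          push_cast at this
          exact this
        rw [h5, mul_zero, add_zero] at h4
        exact IsUnit.of_mul_eq_one (v : ZMod (p ^ 2)) (by rw [mul_comm]; exact h4)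
      exact ⟨h3.unit, rfl⟩
    have h3 := ZMod.pow_totient u
    have h4 : ((a i : ℤ) : ZMod (p ^ 2)) ^ L = 1 := by
      rw [hL, ← hu, ← Units.val_pow_eq_pow_val, h3, Units.val_one]
    have h5 : ((a i ^ L - 1 : ℤ) : ZMod (p ^ 2)) = 0 := by push_cast; rw [h4, sub_self]
    have h6 := (ZMod.intCast_zmod_eq_zero_iff_dvd _ (p ^ 2)).1 h5
    push_cast at h6
    exact h6
  choose D hD using hdvd
  have habs : ∀ i, |a i ^ L| = |a i| ^ L := fun i => abs_pow _ _
  have hD0 : ∀ i, D i ≠ 0 := by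
    intro i h0
    have h1 := hD i
    rw [h0, mul_zero] at h1
    have h2 : a i ^ L = 1 := by linarith
    have h3 := habs i
    rw [h2, abs_one] at h3
    have h4 : 2 ^ L ≤ |a i| ^ L := pow_le_pow_left₀ (by norm_num) (ha2 i) _
    have h5 : (2 : ℤ) ^ 1 ≤ 2 ^ L := pow_le_pow_right₀ (by norm_num) hL1
    linarith
  have hDD : ∀ i j, i ≠ j → D i - D j ≠ 0 := by
    intro i j hij h0
    have h1 := hD i
    have h2 := hD j
    have h3 : D i = D j := by linarith
    rw [h3] at h1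
    have h4 : a i ^ L = a j ^ L := by linarith
    have h5 : |a i| ^ L = |a j| ^ L := by rw [← habs, ← habs, h4]
    exact hinj i j hij ((pow_left_inj₀ (abs_nonneg _) (abs_nonneg _) (by omega)).1 h5)
  obtain ⟨V, hV⟩ : ∃ V : ℕ, V = ∑ i, (D i * ∏ j ∈ univ.erase i, (D i - D j)).natAbs := ⟨_, rfl⟩
  obtain ⟨μ, hμ⟩ : ∃ μ, μ = 2 * κ + V := ⟨_, rfl⟩
  refine ⟨L, 2 * μ + 1 + L * μ, hL1, by omega, fun b hb => ?_⟩
  obtain ⟨i0, hi0⟩ := hb
  obtain ⟨ψ, hψ⟩ : ∃ ψ : (Fin κ → ℤ) →+ ℤ, ∀ y, ψ y = ∑ i, b i * y i :=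
    ⟨{ toFun := fun y => ∑ i, b i * y i
       map_zero' := by simp
       map_add' := fun y z => by simp [mul_add, sum_add_distrib] }, fun y => rfl⟩
  have hx : a ^ L = 1 + (p : Fin κ → ℤ) ^ 2 * D := by
    funext i
    simp only [Pi.pow_apply, Pi.add_apply, Pi.one_apply, Pi.mul_apply, Pi.natCast_apply]
    linarith [hD i]
  have key := locV (p := p) ψ a D hL1 hx (μ := μ) (by
    intro s
    have hval : ∀ k, ψ (a ^ s * D ^ (k + 1)) = ∑ i, (b i * a i ^ s) * D i ^ (k + 1) := by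
      intro k
      rw [hψ]
      apply sum_congr rfl
      intro i _
      simp only [Pi.mul_apply, Pi.pow_apply]
      ring
    have hbound : ∀ v : ℕ, (∀ j < κ, (p : ℤ) ^ v ∣ ∑ i, (b i * a i ^ s) * D i ^ (j + 1)) → v < V := by
      intro v hv
      have h1 := vdm (fun i => b i * a i ^ s) D hv i0
      have h2 : IsCoprime ((p : ℤ) ^ v) (b i0 * a i0 ^ s) := by
        apply IsCoprime.pow_left
        apply IsCoprime.mul_right
        · exact hpr.coprime_iff_not_dvd.2 hi0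
        · exact (hpr.coprime_iff_not_dvd.2 (ha i0)).pow_right
      have h3 := h2.dvd_of_dvd_mul_left h1
      have h4 : D i0 * ∏ j ∈ univ.erase i0, (D i0 - D j) ≠ 0 := by
        apply mul_ne_zero (hD0 i0)
        apply Finset.prod_ne_zero_iff.2
        intro j hj
        exact hDD i0 j (ne_of_mem_erase hj).symm
      have h5 := Int.natAbs_dvd_natAbs.2 h3
      rw [Int.natAbs_pow, Int.natAbs_natCast] at h5
      have h6 := Nat.le_of_dvd (Int.natAbs_pos.2 h4) h5
      have h7 : v < p ^ v := Nat.lt_pow_self hp.out.one_lt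
      have h8 : (D i0 * ∏ j ∈ univ.erase i0, (D i0 - D j)).natAbs ≤ V := by
        rw [hV]
        exact Finset.single_le_sum (f := fun i => (D i * ∏ j ∈ univ.erase i, (D i - D j)).natAbs) (fun _ _ => Nat.zero_le _)
          (mem_univ i0)
      omega
    have hex : ∃ k, (fun k => if k < κ then ∑ i, (b i * a i ^ s) * D i ^ (k + 1) else 0) k ≠ 0 := by
      by_contra hcon
      push Not at hcon
      have := hbound V (by
        intro j hj
        have h1 := hcon j
        simp only [hj, if_true] at h1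
        rw [h1]
        exact dvd_zero _)
      omega
    obtain ⟨K, ν, hK, hν⟩ := min_val p _ hex
    have hKκ : K < κ := by
      by_contra hlt
      apply hK
      simp only [hlt, if_false]
      exact dvd_zero _
    simp only [hKκ, if_true] at hK
    have hν' : ∀ j < κ, (p : ℤ) ^ ν ∣ ∑ i, (b i * a i ^ s) * D i ^ (j + 1) := by
      intro j hj
      have := hν j
      simp only [hj, if_true] at this
      exact this
    refine ⟨K, ν, ?_, ?_, ?_⟩
    · have := hbound ν hν'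
      omega
    · rw [hval]; exact hK
    · intro k
      rw [hval]
      exact all_dvd _ D hν' k)
  have e : (fun n => ψ (a ^ n)) = fun n => ∑ i, b i * a i ^ n := by
    funext n
    rw [hψ]
    simp only [Pi.pow_apply]
  rw [e] at key
  exact key

/-- uniformly in all coefficients that are not all divisible by `p ^ (s + 1)` -/
theorem loc_exp' (p : ℕ) [hp : Fact p.Prime] {κ : ℕ} (a : Fin κ → ℤ) (ha : ∀ i, ¬ (p : ℤ) ∣ a i) (ha2 : ∀ i, 2 ≤ |a i|)
    (hinj : ∀ i j, i ≠ j → |a i| ≠ |a j|) : ∃ L c : ℕ, 1 ≤ L ∧ 1 ≤ c ∧ ∀ (s : ℕ) (b : Fin κ → ℤ) (C : ℤ),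
      (∃ i, ¬ (p : ℤ) ^ (s + 1) ∣ b i) → LocU p L c (2 ^ (s + 1)) (fun n => C + ∑ i, b i * a i ^ n) := by
  classical
  obtain ⟨L, c, hL, hc, h⟩ := loc_exp p a ha ha2 hinj
  refine ⟨L, c, hL, hc, fun s b C hb => ?_⟩
  -- the exact power
  have hex : ∃ v : ℕ, ∃ i, ¬ (p : ℤ) ^ (v + 1) ∣ b i := ⟨s, hb⟩
  obtain ⟨v, hv⟩ : ∃ v, v = Nat.find hex := ⟨_, rfl⟩
  have hvs : v ≤ s := by rw [hv]; exact Nat.find_min' hex hb
  obtain ⟨i0, hi0⟩ := Nat.find_spec hex
  rw [← hv] at hi0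
  have hall : ∀ i, (p : ℤ) ^ v ∣ b i := by
    intro i
    rcases Nat.eq_zero_or_pos v with h0 | h0
    · rw [h0, pow_zero]; exact one_dvd _
    · have h1 := Nat.find_min hex (m := v - 1) (by omega)
      push Not at h1
      have h2 := h1 i
      rwa [Nat.sub_add_cancel h0] at h2
  choose b' hb' using hall
  have h1 := h b' ⟨i0, by
    intro h2
    apply hi0
    rw [hb' i0, pow_succ]
    exact mul_dvd_mul_left _ h2⟩
  have h2 := LocU.scale (p := p) hp.out.ne_zero hc (f := fun n => C + ∑ i, b i * a i ^ n) h1 v (by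
    intro n n'
    rw [mul_sub, mul_sum, mul_sum, add_sub_add_left_eq_sub]
    congr 1
    · apply sum_congr rfl
      intro i _
      rw [hb' i]; ring
    · apply sum_congr rfl
      intro i _
      rw [hb' i]; ring)
  exact h2.mono (Nat.pow_le_pow_right (by norm_num) (by omega))

end Pool.Agent.T2H58.LU
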