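import Pool.Agent.T2H58.LU.Spr

/-! The values of integer polynomials: the local property with parameters depending on the degree only. -/

set_option autoImplicit false

namespace Pool.Agent.T2H58.LU

open Finset Polynomial

theorem pw {p : ℕ} [hp : Fact p.Prime] (l : ℕ) : ∀ (M : ℕ) (u w : ℤ), (p : ℤ) ^ (l + M) ∣ u * w → ¬ (p : ℤ) ^ (l + 1) ∣ u →
    (p : ℤ) ^ M ∣ w := by
  have hpr : Prime (p : ℤ) := Nat.prime_iff_prime_int.1 hp.out
  induction l with
  | zero =>
    intro M u w h1 h2
    rw [zero_add] at h1 h2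
    rw [pow_one] at h2
    exact hpr.pow_dvd_of_dvd_mul_left M h2 h1
  | succ l ih =>
    intro M u w h1 h2
    by_cases hu : (p : ℤ) ∣ u
    · obtain ⟨u1, rfl⟩ := hu
      apply ih M u1 w
      · have e : (p : ℤ) ^ (l + 1 + M) = (p : ℤ) * (p : ℤ) ^ (l + M) := by ring
        rw [e, mul_assoc] at h1
        exact (mul_dvd_mul_iff_left hpr.ne_zero).1 h1
      · intro h3
        apply h2
        rw [pow_succ']
        exact mul_dvd_mul_left _ h3
    · have h3 := hpr.pow_dvd_of_dvd_mul_left _ hu h1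
      exact (pow_dvd_pow _ (by omega)).trans h3

theorem cdvd {p : ℕ} [hp : Fact p.Prime] (l : ℕ) : ∀ (D : ℕ) (h : ℤ[X]), h.natDegree ≤ D → ∀ T : Finset ℤ, D + 1 ≤ T.card →
    (∀ a ∈ T, ∀ b ∈ T, a ≠ b → ¬ (p : ℤ) ^ (l + 1) ∣ a - b) → ∀ e : ℕ,
    (∀ n ∈ T, (p : ℤ) ^ (l * D + e) ∣ h.eval n) → C ((p : ℤ) ^ e) ∣ h := by
  classical
  intro D
  induction D with
  | zero =>
    intro h hD T hT _ e he
    obtain ⟨n, hn⟩ := Finset.card_pos.1 (show 0 < T.card by omega)
    have h1 := he n hn
    rw [mul_zero, zero_add] at h1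
    obtain ⟨a, ha⟩ : ∃ a, C a = h := natDegree_eq_zero.1 (by omega)
    subst ha
    rw [eval_C] at h1
    exact _root_.map_dvd C h1
  | succ D ih =>
    intro h hD T hT hsep e he
    obtain ⟨n0, hn0⟩ := Finset.card_pos.1 (show 0 < T.card by omega)
    set g := h /ₘ (X - C n0) with hg
    have hmod : h %ₘ (X - C n0) = C (h.eval n0) := modByMonic_X_sub_C_eq_C_eval h n0
    have hdiv : C (h.eval n0) + (X - C n0) * g = h := by
      rw [← hmod]; exact modByMonic_add_div h (X - C n0)
    have hgd : g.natDegree ≤ D := by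
      rw [hg, natDegree_divByMonic _ (monic_X_sub_C n0), natDegree_X_sub_C]
      omega
    have hge : C ((p : ℤ) ^ e) ∣ g := by
      apply ih g hgd (T.erase n0) (by rw [card_erase_of_mem hn0]; omega) (fun a ha b hb => hsep a (mem_of_mem_erase ha) b (mem_of_mem_erase hb)) e
      intro n hn
      have h1 := hsep n (mem_of_mem_erase hn) n0 hn0 (ne_of_mem_erase hn)
      apply pw l (l * D + e) (n - n0) (g.eval n) _ h1
      have h2 : (n - n0) * g.eval n = h.eval n - h.eval n0 := by
        conv_rhs => rw [← hdiv]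
        simp
      rw [h2]
      have e1 : l + (l * D + e) = l * (D + 1) + e := by ring
      rw [e1]
      exact dvd_sub (he n (mem_of_mem_erase hn)) (he n0 hn0)
    rw [← hdiv]
    apply dvd_add
    · exact _root_.map_dvd C ((pow_dvd_pow _ (by omega)).trans (he n0 hn0))
    · exact Dvd.dvd.mul_left hge _

/-- the derivative of a polynomial at few points of a block -/
theorem der_block {p : ℕ} [hp : Fact p.Prime] {D s l j : ℕ} {f : ℤ[X]} (hD : f.natDegree ≤ D)
    (hs : ∃ i, 1 ≤ i ∧ ¬ (p : ℤ) ^ (s + 1) ∣ f.coeff i) (hj : s + 1 + D + D * l ≤ j) (T : Finset ℤ)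
    (hclose : ∀ a ∈ T, ∀ b ∈ T, |a - b| < 2 ^ l) (hT : ∀ a ∈ T, (p : ℤ) ^ j ∣ f.derivative.eval a) : T.card ≤ D := by
  by_contra hcon
  push Not at hcon
  have h1 : C ((p : ℤ) ^ (s + 1 + D)) ∣ f.derivative := by
    apply cdvd l D f.derivative ((natDegree_derivative_le f).trans (by omega)) T hcon
    · intro a ha b hb hab hdvd
      have h2 := hclose a ha b hb
      have h3 : (p : ℤ) ^ (l + 1) ≤ |a - b| := by
        apply Int.le_of_dvd (abs_pos.2 (sub_ne_zero.2 hab))
        exact (dvd_abs _ _).2 hdvd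
      have h4 : (2 : ℤ) ^ (l + 1) ≤ (p : ℤ) ^ (l + 1) := pow_le_pow_left₀ (by norm_num) (by exact_mod_cast hp.out.two_le) _
      have h5 : (2 : ℤ) ^ (l + 1) = 2 * 2 ^ l := by ring
      have h6 : (0 : ℤ) < 2 ^ l := by positivity
      linarith
    · intro n hn
      refine (pow_dvd_pow _ ?_).trans (hT n hn)
      rw [mul_comm l D]
      omega
  obtain ⟨i, hi, hi2⟩ := hs
  rw [C_dvd_iff_dvd_coeff] at h1
  have h2 := h1 (i - 1)
  rw [coeff_derivative] at h2
  have hiD : i ≤ D := by
    by_contra hlt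
    apply hi2
    rw [coeff_eq_zero_of_natDegree_lt (by omega)]
    exact dvd_zero _
  apply hi2
  apply pw D (s + 1) (i : ℤ) (f.coeff i)
  · have e1 : i - 1 + 1 = i := by omega
    rw [e1] at h2
    have e2 : ((i - 1 : ℕ) : ℤ) + 1 = i := by omega
    rw [e2] at h2
    rw [mul_comm, add_comm D]
    exact h2
  · intro h3
    have h4 := Int.le_of_dvd (by omega) h3
    have h5 : D + 1 < p ^ (D + 1) := Nat.lt_pow_self hp.out.one_lt
    have h6 : ((D + 1 : ℕ) : ℤ) < (p : ℤ) ^ (D + 1) := by exact_mod_cast h5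
    have h7 : (i : ℤ) ≤ D := by exact_mod_cast hiD
    push_cast at h6
    linarith

theorem loc_poly {p : ℕ} [hp : Fact p.Prime] {D s : ℕ} {f : ℤ[X]} (hD : f.natDegree ≤ D)
    (hs : ∃ i, 1 ≤ i ∧ ¬ (p : ℤ) ^ (s + 1) ∣ f.coeff i) (X0 : ℤ) :
    LocU p 1 (2 * D + 2) (2 ^ s) (fun n => f.eval (X0 + n)) := by
  classical
  intro j
  refine ⟨fun n => (p : ℤ) ^ j ∣ f.derivative.eval (X0 + n), ?_, ?_⟩
  · intro X Q F hF hbad
    obtain ⟨c, hc⟩ : ∃ c, c = 2 * D + 2 := ⟨_, rfl⟩
    obtain ⟨l, hl⟩ : ∃ l, l = j / c := ⟨_, rfl⟩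
    rw [← hc, ← hl]
    have hlc : l * c ≤ j := by rw [hl]; exact Nat.div_mul_le_self j c
    have hΛ1 : 1 ≤ 2 ^ l := Nat.one_le_two_pow
    rcases Nat.lt_or_ge j (s + 1 + D + D * l) with hj | hj
    · have h1 := card_le_card hF
      rw [Nat.card_Ioc] at h1
      have hls : l ≤ s := by
        by_contra hcon
        push Not at hcon
        have h2 : l * c = 2 * (D * l) + 2 * l := by rw [hc]; ring
        have h3 : D * (s + 1) ≤ D * l := Nat.mul_le_mul_left _ hcon
        have h4 : D * (s + 1) = D * s + D := by ring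
        omega
      have h2 : 2 ^ l ≤ 2 ^ s := Nat.pow_le_pow_right (by norm_num) hls
      have h3 : Q < 2 ^ l * (Q / 2 ^ l + 1) := by
        have := Nat.lt_mul_div_succ Q (show 0 < 2 ^ l by omega)
        exact this
      calc F.card ≤ Q := by omega
        _ ≤ 2 ^ l * (Q / 2 ^ l + 1) := h3.le
        _ ≤ 2 ^ s * (Q / 2 ^ l + 1) := Nat.mul_le_mul_right _ h2
        _ ≤ c * 2 ^ s * (Q / 2 ^ l + 1) := by
            apply Nat.mul_le_mul_right
            exact Nat.le_mul_of_pos_left _ (by omega)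
    · have hfib : ∀ b ∈ range (Q / 2 ^ l + 1), (F.filter (fun n => (n - X - 1) / 2 ^ l = b)).card ≤ D := by
        intro b _
        have hinj : Function.Injective (fun n : ℕ => X0 + (n : ℤ)) := by
          intro a b h
          simp only at h
          omega
        rw [← card_image_of_injective _ hinj]
        apply der_block (p := p) (j := j) (l := l) hD hs hj
        · intro a ha b' hb'
          rw [mem_image] at ha hb'
          obtain ⟨n, hn, rfl⟩ := ha
          obtain ⟨n', hn', rfl⟩ := hb'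
          rw [mem_filter] at hn hn'
          have h1 := mem_Ioc.1 (hF hn.1)
          have h2 := mem_Ioc.1 (hF hn'.1)
          have h3 := Nat.div_add_mod (n - X - 1) (2 ^ l)
          have h4 := Nat.div_add_mod (n' - X - 1) (2 ^ l)
          have h5 := Nat.mod_lt (n - X - 1) (show 0 < 2 ^ l by omega)
          have h6 := Nat.mod_lt (n' - X - 1) (show 0 < 2 ^ l by omega)
          rw [hn.2] at h3
          rw [hn'.2] at h4
          have e : X0 + (n : ℤ) - (X0 + (n' : ℤ)) = (n : ℤ) - n' := by ring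
          rw [e]
          have h7 : ((2 : ℤ) ^ l) = ((2 ^ l : ℕ) : ℤ) := by push_cast; rfl
          rw [h7]
          generalize 2 ^ l = Λ at *
          generalize Λ * b = q at h3 h4
          rw [abs_lt]
          omega
        · intro a ha
          rw [mem_image] at ha
          obtain ⟨n, hn, rfl⟩ := ha
          exact hbad n (mem_filter.1 hn).1
      have hcard := Finset.card_le_mul_card_image_of_maps_to (s := F) (t := range (Q / 2 ^ l + 1))
        (f := fun n => (n - X - 1) / 2 ^ l) (by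
          intro n hn
          have h1 := mem_Ioc.1 (hF hn)
          rw [mem_range]
          have h2 : (n - X - 1) / 2 ^ l ≤ Q / 2 ^ l := Nat.div_le_div_right (by omega)
          omega) D hfib
      rw [card_range] at hcard
      refine hcard.trans (Nat.mul_le_mul_right _ ?_)
      calc D ≤ c * 1 := by omega
        _ ≤ c * 2 ^ s := Nat.mul_le_mul_left _ Nat.one_le_two_pow
  · intro n hn t N hN
    obtain ⟨k, hk⟩ := binomExpansion f (X0 + n) ((p : ℤ) ^ j * t)
    have h1 : f.eval (X0 + ((n + 1 * p ^ j * t : ℕ) : ℤ)) - f.eval (X0 + (n : ℤ)) =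
        (f.derivative.eval (X0 + n) + k * ((p : ℤ) ^ j * t)) * ((p : ℤ) ^ j * t) := by
      have e : X0 + ((n + 1 * p ^ j * t : ℕ) : ℤ) = X0 + (n : ℤ) + (p : ℤ) ^ j * t := by push_cast; ring
      rw [e, hk]
      ring
    simp only at hN
    rw [h1] at hN
    rcases Nat.eq_zero_or_pos j with h0 | h0
    · subst h0
      exfalso
      apply hn
      rw [pow_zero]
      exact one_dvd _
    obtain ⟨i, rfl⟩ : ∃ i, j = i + 1 := ⟨j - 1, by omega⟩
    rcases Nat.lt_or_ge N i with hlt | hge
    · refine (pow_dvd_pow _ ?_).trans (Dvd.intro_left _ rfl)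
      omega
    · obtain ⟨M, rfl⟩ := Nat.exists_eq_add_of_le hge
      have h2 := pw i M _ _ hN (by
        intro h3
        apply hn
        have h4 : (p : ℤ) ^ (i + 1) ∣ k * ((p : ℤ) ^ (i + 1) * t) := ⟨k * t, by ring⟩
        exact (dvd_add_left h4).1 h3)
      rw [pow_add]
      have h5 := mul_dvd_mul_left ((p : ℤ) ^ i) h2
      refine h5.trans ⟨(p : ℤ) ^ 3, ?_⟩
      ring

end Pool.Agent.T2H58.LU
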