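import Pool.Agent.T2H58.LU.Mo

/-! Möller's maps and families of integers each class of which modulo `d ^ N` has few members. -/

set_option autoImplicit false

namespace Pool.Agent.T2H58.LU

open Finset Pool.Agent.H319R2 Filter
open Pool.Agent.H319R2.M
open Pool.Agent.Y927.GP (Typ large typ_of conv scale mu card_classes Unb)

/-- Every class modulo `d ^ N`, for the scale `N` of `Y`, has at most `M` members `f n`, `n ∈ A`. -/
def ClsLe (d : ℕ) (f : ℕ → ℤ) (A : Finset ℕ) (M Y : ℝ) : Prop :=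
  ∀ N : ℕ, (d : ℝ) ^ N ≤ Y → Y < (d : ℝ) ^ (N + 1) → ∀ v : ℤ, ((A.filter (fun n => f n % (d : ℤ) ^ N = v)).card : ℝ) ≤ M

theorem ClsLe.mono {d : ℕ} {f : ℕ → ℤ} {A A' : Finset ℕ} {M Y : ℝ} (h : ClsLe d f A M Y) (hA : A' ⊆ A) :
    ClsLe d f A' M Y := by
  intro N h1 h2 v
  have h3 : (A'.filter (fun n => f n % (d : ℤ) ^ N = v)).card ≤ (A.filter (fun n => f n % (d : ℤ) ^ N = v)).card :=
    card_le_card (filter_subset_filter _ hA)
  have h4 : ((A'.filter (fun n => f n % (d : ℤ) ^ N = v)).card : ℝ) ≤ (A.filter (fun n => f n % (d : ℤ) ^ N = v)).card := by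
    exact_mod_cast h3
  exact h4.trans (h N h1 h2 v)

theorem ClsLe.card_le {d : ℕ} {f : ℕ → ℤ} {A : Finset ℕ} {M Y : ℝ} (h : ClsLe d f A M Y) {N : ℕ} (h1 : (d : ℝ) ^ N ≤ Y)
    (h2 : Y < (d : ℝ) ^ (N + 1)) (V : Finset ℤ) (hV : ∀ n ∈ A, f n % (d : ℤ) ^ N ∈ V) : (A.card : ℝ) ≤ M * V.card := by
  have h3 := card_eq_sum_card_fiberwise (f := fun n => f n % (d : ℤ) ^ N) (s := A) (t := V) (fun n hn => hV n hn)
  have h4 : (A.card : ℝ) = ∑ v ∈ V, ((A.filter (fun n => f n % (d : ℤ) ^ N = v)).card : ℝ) := by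
    rw [h3]; push_cast; rfl
  rw [h4]
  calc ∑ v ∈ V, ((A.filter (fun n => f n % (d : ℤ) ^ N = v)).card : ℝ) ≤ ∑ v ∈ V, M := sum_le_sum fun v _ => h N h1 h2 v
    _ = M * V.card := by rw [sum_const, nsmul_eq_mul, mul_comm]

theorem ClsLe.triv {d : ℕ} (hd : 2 ≤ d) {f : ℕ → ℤ} {A : Finset ℕ} {M Y : ℝ} (h : ClsLe d f A M Y) (hM : 0 ≤ M)
    (hY : 1 ≤ Y) : (A.card : ℝ) ≤ M * Y := by
  obtain ⟨N, hN1, hN2, -⟩ := scale d hd Y hY
  have hd0 : (0 : ℤ) < (d : ℤ) ^ N := pow_pos (by omega) N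
  have h1 := h.card_le hN1 hN2 (Ico 0 ((d : ℤ) ^ N)) (fun n _ => by
    rw [mem_Ico]
    exact ⟨Int.emod_nonneg _ hd0.ne', Int.emod_lt_of_pos _ hd0⟩)
  refine h1.trans (mul_le_mul_of_nonneg_left ?_ hM)
  rw [Int.card_Ico]
  have h2 : (((((d : ℤ) ^ N - 0).toNat : ℕ) : ℤ) : ℝ) = (d : ℝ) ^ N := by
    rw [Int.toNat_of_nonneg (by omega)]
    push_cast
    ring
  rw [Int.cast_natCast] at h2
  rw [h2]
  exact hN1

/-- Few small values. -/
theorem few_cls {d : ℕ} (hd : 2 ≤ d) {f : ℕ → ℤ} {A : Finset ℕ} {M Y : ℝ} (hM : 0 ≤ M) (hY : 1 ≤ Y)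
    (h : ClsLe d f A M Y) {ε Z : ℝ} (hε1 : ε ≤ 1) (hZ : 1 ≤ Z)
    (hsm : ∀ n ∈ A, |((f n : ℤ) : ℝ)| ≤ Z * Y ^ (1 - ε)) : (A.card : ℝ) ≤ M * (3 * Z * Y ^ (1 - ε)) := by
  classical
  obtain ⟨N, hN1, hN2, -⟩ := scale d hd Y hY
  obtain ⟨V, hV⟩ : ∃ V : ℤ, V = ⌊Z * Y ^ (1 - ε)⌋ := ⟨_, rfl⟩
  have hV1 : 1 ≤ Z * Y ^ (1 - ε) := by
    have := Real.one_le_rpow hY (by linarith : 0 ≤ 1 - ε)
    nlinarith
  have hV0 : 0 ≤ V := by rw [hV]; exact Int.floor_nonneg.2 (by linarith)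
  have hVle : (V : ℝ) ≤ Z * Y ^ (1 - ε) := by rw [hV]; exact Int.floor_le _
  have h3 := h.card_le hN1 hN2 ((Icc (-V) V).image (fun u => u % (d : ℤ) ^ N)) (by
      intro n hn
      have h4 := hsm n hn
      rw [abs_le] at h4
      apply mem_image_of_mem
      rw [mem_Icc]
      constructor
      · have h5 : -f n ≤ V := by
          rw [hV]; apply Int.le_floor.2; push_cast; linarith [h4.1]
        omega
      · rw [hV]; exact Int.le_floor.2 h4.2)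
  refine h3.trans (mul_le_mul_of_nonneg_left ?_ hM)
  have h5 : ((Icc (-V) V).image (fun u => u % (d : ℤ) ^ N)).card ≤ (Icc (-V) V).card := card_image_le
  rw [Int.card_Icc] at h5
  have h6 : ((V + 1 - -V).toNat : ℤ) = 2 * V + 1 := by rw [Int.toNat_of_nonneg (by omega)]; ring
  have h7 : (((Icc (-V) V).image (fun u => u % (d : ℤ) ^ N)).card : ℤ) ≤ 2 * V + 1 := by rw [← h6]; exact_mod_cast h5
  have h8 : (((Icc (-V) V).image (fun u => u % (d : ℤ) ^ N)).card : ℝ) ≤ 2 * (V : ℝ) + 1 := by exact_mod_cast h7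
  linarith

/-- For all but few `n ∈ A` the trajectory of `f n` follows the law. -/
theorem law_cls {g : GM} {b : ℤ → ℤ} {e : ℤ → ℕ} {C : Finset (ℤ × ℕ)} {ρ : ℤ × ℕ → ℝ} (hf : g.Fac b e)
    (hC : g.Cls e C ρ) {κ : ℝ} (hκ0 : 0 ≤ κ) (hκ : -mu g C ρ ≤ κ * Real.log g.d) (hκD : κ < 1) {ε : ℝ} (hε : 0 < ε) :
    ∃ δ K : ℝ, 0 < δ ∧ δ < 1 ∧ 0 < K ∧ ∀ (f : ℕ → ℤ) (A : Finset ℕ) (M Y : ℝ), 1 ≤ Y → 0 ≤ M → ClsLe g.d f A M Y →
        (∀ n ∈ A, f n ∈ g.SC C ∧ ¬ Typ g (mu g C ρ) ε Y (f n)) → (A.card : ℝ) ≤ K * M * Y ^ (1 - δ) := by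
  classical
  set μ := mu g C ρ with hμ
  have hd2 := g.two_le
  have hd1 : (1 : ℝ) < g.d := by have := g.dr; linarith
  have hd0 : (0 : ℝ) < g.d := by linarith
  have hL : 0 < Real.log g.d := Real.log_pos hd1
  set ε1 : ℝ := min ε ((1 - κ) / 4) with hε1
  have hε10 : 0 < ε1 := lt_min hε (by linarith)
  have hε1ε : ε1 ≤ ε := min_le_left _ _
  have hε1β : ε1 ≤ (1 - κ) / 4 := min_le_right _ _
  have hε11 : ε1 ≤ 1 := by linarith
  obtain ⟨c, K2, hc, hK2, hclass⟩ := card_classes hf hC (η := ε1 / 4 * Real.log g.d) (by positivity)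
  obtain ⟨δ2, K4, hδ20, hδ21, hK4, hconv2⟩ := conv g.d hd2 (c := c) (by positivity)
  obtain ⟨Y0, hY01, hlarge⟩ := large g.d hd2 (θ := 1) (by norm_num) (show 0 < ε1 / 4 by positivity)
    (show 0 < (1 - κ) / 2 by linarith) g.R_nonneg 0
  set δ : ℝ := min δ2 ε1 with hδ
  have hδ0 : 0 < δ := lt_min hδ20 hε10
  have hδb : δ ≤ δ2 := min_le_left _ _
  have hδc : δ ≤ ε1 := min_le_right _ _
  have hδ1 : δ < 1 := lt_of_le_of_lt hδb hδ21
  refine ⟨δ, K2 * K4 + 3 + Y0, hδ0, hδ1, by positivity, ?_⟩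
  intro f A M Y hY hM hcls hbad
  have hYp : 0 < Y := by linarith
  have hY1δ : 1 ≤ Y ^ (1 - δ) := Real.one_le_rpow hY (by linarith)
  obtain ⟨N, hN1, hN2, hNM⟩ := scale g.d hd2 Y hY
  have hN0 : (0 : ℝ) ≤ N := Nat.cast_nonneg _
  rcases lt_or_ge Y Y0 with hsmall | hbig
  · calc (A.card : ℝ) ≤ M * Y := hcls.triv hd2 hM hY
      _ ≤ M * Y0 * 1 := by rw [mul_one]; exact mul_le_mul_of_nonneg_left hsmall.le hM
      _ ≤ M * Y0 * Y ^ (1 - δ) := by gcongr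
      _ ≤ (K2 * K4 + 3 + Y0) * M * Y ^ (1 - δ) := by
          apply mul_le_mul_of_nonneg_right _ (by positivity)
          have : 0 ≤ (K2 * K4 + 3) * M := by positivity
          linarith
  obtain ⟨-, hYε, hRN⟩ := hlarge Y hbig N hN1 hN2
  set A0 := A.filter (fun n : ℕ => Y ^ (1 - ε1) ≤ |((f n : ℤ) : ℝ)|) with hA0
  set E3 := A.filter (fun n : ℕ => |((f n : ℤ) : ℝ)| ≤ 1 * Y ^ (1 - ε1)) with hE3
  have hsub : A ⊆ A0 ∪ E3 := by
    intro n hn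
    rw [mem_union]
    by_cases h3 : |((f n : ℤ) : ℝ)| ≤ 1 * Y ^ (1 - ε1)
    · right; rw [hE3, mem_filter]; exact ⟨hn, h3⟩
    · left
      rw [hA0, mem_filter]
      rw [one_mul] at h3
      exact ⟨hn, (not_le.1 h3).le⟩
  have hcard : A.card ≤ A0.card + E3.card := (Finset.card_le_card hsub).trans (Finset.card_union_le _ _)
  set V := A0.image (fun n : ℕ => f n % (g.d : ℤ) ^ N) with hV
  have hQ2 : (A0.card : ℝ) ≤ M * (K2 * K4 * Y ^ (1 - δ)) := by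
    have hVc : (V.card : ℝ) ≤ K2 * ((N + 1) * ((g.d : ℝ) ^ N * Real.exp (-(c * N)))) := by
      apply hclass N V
      intro v hv
      rw [hV, mem_image] at hv
      obtain ⟨n, hn, rfl⟩ := hv
      rw [hA0, mem_filter] at hn
      obtain ⟨hnA, hbign⟩ := hn
      obtain ⟨hS, hT⟩ := hbad n hnA
      refine ⟨f n, hS, ?_, rfl⟩
      by_contra hU
      exact hT (typ_of g hκ0 hκ hε10 hε1ε hε1β hY hN1 hN2 hYε hRN hbign hU)
    have h1 := (hcls.mono (filter_subset _ A : A0 ⊆ A)).card_le hN1 hN2 V (fun n hn => by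
      rw [hV]; exact mem_image_of_mem _ hn)
    refine h1.trans (mul_le_mul_of_nonneg_left ?_ hM)
    have h18 := hconv2 N Y hY hN2
    calc (V.card : ℝ) ≤ K2 * ((N + 1) * ((g.d : ℝ) ^ N * Real.exp (-(c * N)))) := hVc
      _ = K2 * (((N : ℝ) + 1) * Real.exp (-(c * N)) * (g.d : ℝ) ^ N) := by ring
      _ ≤ K2 * (((N : ℝ) + 1) * Real.exp (-(c * N)) * Y) := by gcongr
      _ ≤ K2 * (K4 * Y ^ (1 - δ2)) := by gcongr
      _ ≤ K2 * (K4 * Y ^ (1 - δ)) := by gcongr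
      _ = K2 * K4 * Y ^ (1 - δ) := by ring
  have hQ3 : (E3.card : ℝ) ≤ M * (3 * Y ^ (1 - δ)) := by
    have h1 := few_cls hd2 hM hY (hcls.mono (filter_subset _ A : E3 ⊆ A)) hε11 le_rfl (fun n hn => (mem_filter.1 hn).2)
    refine h1.trans (mul_le_mul_of_nonneg_left ?_ hM)
    rw [mul_one]
    gcongr
  have hcard' : (A.card : ℝ) ≤ A0.card + E3.card := by exact_mod_cast hcard
  calc (A.card : ℝ) ≤ A0.card + E3.card := hcard'
    _ ≤ M * (K2 * K4 * Y ^ (1 - δ)) + M * (3 * Y ^ (1 - δ)) := by gcongr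
    _ = (K2 * K4 + 3) * (M * Y ^ (1 - δ)) := by ring
    _ ≤ (K2 * K4 + 3 + Y0) * (M * Y ^ (1 - δ)) := by
        apply mul_le_mul_of_nonneg_right _ (by positivity)
        linarith
    _ = _ := by ring

open Pool.Agent.Y927.GP.Mo
open Pool.Agent.T2H58.LR (desc_of_typ)

variable {d m : ℕ} {r : ℤ → ℤ}

/-- Few `n ∈ A` for which the `H`-orbit of `f n` has no small term. -/
theorem desc_cls (hd : 2 ≤ d) (hm : 2 ≤ m) (hc : Nat.Coprime m d)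
    (hle : (m : ℝ) ≤ (d : ℝ) ^ ((d : ℝ) / ((d : ℝ) - 1)))
    (hr : ∀ j : ℤ, 1 ≤ j → j < d → (d : ℤ) ∣ m * j - r j) {ε : ℝ} (hε : 0 < ε) :
    ∃ δ K : ℝ, 0 < δ ∧ δ < 1 ∧ 0 < K ∧ ∀ (f : ℕ → ℤ) (A : Finset ℕ) (M Y : ℝ), 1 ≤ Y → 0 ≤ M → ClsLe d f A M Y →
      (∀ n ∈ A, 0 < f n ∧ ¬ (d : ℤ) ∣ f n ∧ ∀ k : ℕ, Def d m r (f n) k → 0 < (H d m r)^[k] (f n) →
          (f n : ℝ) * Y ^ (-kap d m + ε) < (((H d m r)^[k] (f n) : ℤ) : ℝ)) → (A.card : ℝ) ≤ K * M * Y ^ (1 - δ) := by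
  classical
  obtain ⟨hκ0, hκ1⟩ := kap_bounds hd hm hc hle
  obtain ⟨κ, hκ⟩ : ∃ κ, κ = kap d m := ⟨_, rfl⟩
  rw [← hκ] at hκ0 hκ1
  set ε' : ℝ := min ε (1 - κ) with hε'
  have hε'0 : 0 < ε' := lt_min hε (by linarith)
  have hε'1 : ε' ≤ ε := min_le_left _ _
  have hε'2 : ε' ≤ 1 - κ := min_le_right _ _
  have D := data (r := r) hd hc hr
  have hC := cls (m := m) (r := r) hd
  have hmu := mu_kap hd D
  have hd1 : (1 : ℝ) < d := by exact_mod_cast (by omega : 1 < d)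
  have hd0 : (0 : ℝ) < d := by linarith
  obtain ⟨δ, K, hδ0, hδ1, hK, hmain⟩ := law_cls (Leigh.gm_fac D) (Leigh.gm_cls D hC) hκ0.le
    (by rw [hmu, ← hκ]; linarith) hκ1 (ε := ε' / 2) (by positivity)
  obtain ⟨Y0, hY0⟩ := Filter.eventually_atTop.1 ((tendsto_rpow_atTop (show 0 < ε' / 2 by positivity)).eventually_ge_atTop ((d : ℝ) ^ κ))
  set δ' : ℝ := min δ ε' with hδ'
  have hδ'0 : 0 < δ' := lt_min hδ0 hε'0
  have hδ'a : δ' ≤ δ := min_le_left _ _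
  have hδ'b : δ' ≤ ε' := min_le_right _ _
  have hbd0 : (0 : ℝ) ≤ (bd d r : ℝ) := Nat.cast_nonneg _
  refine ⟨δ', K + 3 * ((bd d r : ℝ) + 1) + max Y0 1, hδ'0, lt_of_le_of_lt hδ'a hδ1, by positivity, ?_⟩
  intro f A M Y hY hM hcls hE
  have hYp : 0 < Y := by linarith
  have hY1 : 1 ≤ Y ^ (1 - δ') := Real.one_le_rpow hY (by linarith)
  rcases lt_or_ge Y Y0 with hsmall | hbig
  · calc (A.card : ℝ) ≤ M * Y := hcls.triv hd hM hY
      _ ≤ M * max Y0 1 * 1 := by rw [mul_one]; exact mul_le_mul_of_nonneg_left (hsmall.le.trans (le_max_left _ _)) hM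
      _ ≤ M * max Y0 1 * Y ^ (1 - δ') := by gcongr
      _ ≤ _ := by
          apply mul_le_mul_of_nonneg_right _ (by positivity)
          have : 0 ≤ (K + 3 * ((bd d r : ℝ) + 1)) * M := by positivity
          linarith
  set A1 := A.filter (fun n : ℕ => |((f n : ℤ) : ℝ)| ≤ ((bd d r : ℝ) + 1) * Y ^ (1 - ε')) with hA1
  set A2 := A.filter (fun n : ℕ => ¬ |((f n : ℤ) : ℝ)| ≤ ((bd d r : ℝ) + 1) * Y ^ (1 - ε')) with hA2
  have h1 : (A1.card : ℝ) ≤ M * (3 * ((bd d r : ℝ) + 1) * Y ^ (1 - δ')) := by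
    have h2 := few_cls hd hM hY (hcls.mono (filter_subset _ A : A1 ⊆ A)) (ε := ε') (by linarith)
      (Z := (bd d r : ℝ) + 1) (by linarith) (fun n hn => (mem_filter.1 hn).2)
    refine h2.trans (mul_le_mul_of_nonneg_left ?_ hM)
    gcongr
  have h2 : (A2.card : ℝ) ≤ K * M * Y ^ (1 - δ') := by
    have h3 : (A2.card : ℝ) ≤ K * M * Y ^ (1 - δ) := by
      apply hmain f A2 M Y hY hM (hcls.mono (filter_subset _ A))
      intro n hn
      rw [hA2, mem_filter] at hn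
      obtain ⟨hnA, hnZ⟩ := hn
      push Not at hnZ
      obtain ⟨hy0, hyd, hno⟩ := hE n hnA
      refine ⟨mem_S hd _, fun htyp => ?_⟩
      rw [hmu] at htyp
      have hyr : (0 : ℝ) < (f n : ℝ) := by exact_mod_cast hy0
      rw [abs_of_pos hyr] at hnZ
      obtain ⟨k, hk1, hk2, hk3⟩ := desc_of_typ hd hm hc hle hr D (ε := ε') hY (by
        rw [← hκ]; exact hY0 Y hbig) hy0 hyd (by
        rw [← hκ]
        have h4 : (bd d r : ℝ) ≤ ((bd d r : ℝ) + 1) * Y ^ (1 - ε') * Y ^ (-κ + ε') := by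
          rw [mul_assoc, ← Real.rpow_add hYp]
          have e : 1 - ε' + (-κ + ε') = 1 - κ := by ring
          rw [e]
          have h5 : 1 ≤ Y ^ (1 - κ) := Real.one_le_rpow hY (by linarith)
          nlinarith
        refine h4.trans ?_
        gcongr) htyp
      have h7 := hno k hk1 hk2
      rw [← hκ] at hk3 h7
      have h8 : (f n : ℝ) * Y ^ (-κ + ε') ≤ (f n : ℝ) * Y ^ (-κ + ε) := by
        apply mul_le_mul_of_nonneg_left _ hyr.le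
        exact Real.rpow_le_rpow_of_exponent_le hY (by linarith)
      linarith
    refine h3.trans ?_
    gcongr
  have h3 : A1.card + A2.card = A.card := Finset.card_filter_add_card_filter_not _
  have h4 : (A.card : ℝ) = A1.card + A2.card := by rw [← h3]; push_cast; rfl
  rw [h4]
  have h5 : 0 ≤ max Y0 1 * M * Y ^ (1 - δ') := by positivity
  calc (A1.card : ℝ) + A2.card ≤ M * (3 * ((bd d r : ℝ) + 1) * Y ^ (1 - δ')) + K * M * Y ^ (1 - δ') := add_le_add h1 h2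
    _ ≤ M * (3 * ((bd d r : ℝ) + 1) * Y ^ (1 - δ')) + K * M * Y ^ (1 - δ') + max Y0 1 * M * Y ^ (1 - δ') := by linarith
    _ = (K + 3 * ((bd d r : ℝ) + 1) + max Y0 1) * M * Y ^ (1 - δ') := by ring

/-- Few `n ∈ A` for which `f n` is in the exceptional set. -/
theorem exc_cls (hd : 2 ≤ d) (hm : 2 ≤ m) (hc : Nat.Coprime m d)
    (hle : (m : ℝ) ≤ (d : ℝ) ^ ((d : ℝ) / ((d : ℝ) - 1)))
    (hr : ∀ j : ℤ, 1 ≤ j → j < d → (d : ℤ) ∣ m * j - r j) :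
    ∃ δ K : ℝ, 0 < δ ∧ δ < 1 ∧ 0 < K ∧ ∀ (f : ℕ → ℤ) (A : Finset ℕ) (M Y : ℝ), 1 ≤ Y → 0 ≤ M → ClsLe d f A M Y →
      (∀ n ∈ A, f n ∈ E d m r) → (A.card : ℝ) ≤ K * M * Y ^ (1 - δ) := by
  classical
  obtain ⟨hκ0, hκ1⟩ := kap_bounds hd hm hc hle
  obtain ⟨δ, K, hδ0, hδ1, hK, h⟩ := desc_cls hd hm hc hle hr (ε := kap d m / 2) (by linarith)
  refine ⟨δ, K + 1, hδ0, hδ1, by positivity, fun f A M Y hY hM hcls hE => ?_⟩
  have hYp : 0 < Y := by linarith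
  rcases eq_or_lt_of_le hY with h1 | h1
  · subst_vars
    have h2 := hcls.triv hd hM le_rfl
    rw [Real.one_rpow]
    nlinarith
  have h2 := h f A M Y hY hM hcls (by
    intro n hn
    obtain ⟨hy0, hyd, hEy⟩ := hE n hn
    refine ⟨hy0, hyd, fun k hk1 hk2 => ?_⟩
    have hyr : (0 : ℝ) < (f n : ℝ) := by exact_mod_cast hy0
    have h3 : f n ≤ (H d m r)^[k] (f n) := by
      rcases Nat.eq_zero_or_pos k with h0 | h0
      · subst h0; simp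
      · exact hEy k h0 hk1
    have h4 : (f n : ℝ) ≤ (((H d m r)^[k] (f n) : ℤ) : ℝ) := by exact_mod_cast h3
    refine lt_of_lt_of_le ?_ h4
    have h5 : Y ^ (-kap d m + kap d m / 2) < 1 := Real.rpow_lt_one_of_one_lt_of_neg h1 (by linarith)
    nlinarith)
  refine h2.trans ?_
  have h4 : 0 ≤ M * Y ^ (1 - δ) := by positivity
  nlinarith

end Pool.Agent.T2H58.LU
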