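import Pool.Agent.T2H58.LU.Poly

/-! Sums of exponentials with integer bases: the local property, uniformly in the coefficients. -/

set_option autoImplicit false

namespace Pool.Agent.T2H58.LU

open Finset Pool.Agent.T2H58.LR

section
variable {A : Type*} [CommRing A]

/-- The theorem `loc` with explicit constants. -/
theorem locV {p : ℕ} [hp : Fact p.Prime] (ψ : A →+ ℤ) (x D : A) {L : ℕ} (hL : 1 ≤ L) (hx : x ^ L = 1 + (p : A) ^ 2 * D)
    {μ : ℕ} (hKV : ∀ s, ∃ K ν, 2 * K + ν ≤ μ ∧ ¬ (p : ℤ) ^ (ν + 1) ∣ ψ (x ^ s * D ^ (K + 1)) ∧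
      ∀ k, (p : ℤ) ^ ν ∣ ψ (x ^ s * D ^ (k + 1))) :
    LocU p L (2 * μ + 1 + L * μ) 1 (fun n => ψ (x ^ n)) := by
  classical
  choose K ν hμs hK hν using hKV
  obtain ⟨c, hc⟩ : ∃ c, c = 2 * μ + 1 + L * μ := ⟨_, rfl⟩
  have hc1 : 2 * μ + 1 ≤ c := by omega
  have hc2 : L * μ ≤ c := by omega
  rw [← hc]
  intro j
  rw [mul_one]
  obtain ⟨a, ha0, hak, hE⟩ := powA p D j
  obtain ⟨E, hEdef⟩ : ∃ E : A, E = ∑ k ∈ range (p ^ j), (a k : A) * D ^ (k + 1) := ⟨_, rfl⟩
  rw [← hEdef] at hE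
  refine ⟨fun n => (p : ℤ) ^ (j + 1) ∣ ψ (x ^ n * E), ?_, fun n hn t N hN => rigid_loc ψ x D E hx hE hn hN⟩
  intro X Q F hF hbad
  obtain ⟨Λ, hΛ⟩ : ∃ Λ, Λ = 2 ^ (j / c) := ⟨_, rfl⟩
  rw [← hΛ]
  have hΛ1 : 1 ≤ Λ := by rw [hΛ]; exact Nat.one_le_two_pow
  rcases Nat.lt_or_ge j c with hjc | hjc
  · rw [Nat.div_eq_of_lt hjc, pow_zero] at hΛ
    rw [hΛ, Nat.div_one]
    have h1 := card_le_card hF
    rw [Nat.card_Ioc] at h1
    have h2 : 1 * (Q + 1) ≤ c * (Q + 1) := Nat.mul_le_mul_right _ (by omega)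
    omega
  -- fibres
  have hfib : ∀ b ∈ range (Q / Λ + 1), (F.filter (fun n => (n - X - 1) / Λ = b)).card ≤ L * μ := by
    intro b _
    by_contra hcon
    push Not at hcon
    obtain ⟨G, hG⟩ : ∃ G, G = F.filter (fun n => (n - X - 1) / Λ = b) := ⟨_, rfl⟩
    rw [← hG] at hcon
    have hmaps : ∀ n ∈ G, n % L ∈ range L := fun n _ => mem_range.2 (Nat.mod_lt _ (by omega))
    obtain ⟨s, hs, hsc⟩ := Finset.exists_lt_card_fiber_of_mul_lt_card_of_maps_to hmaps (by rw [card_range]; exact hcon)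
    rw [mem_range] at hs
    have hclose : ∀ n ∈ G, ∀ n' ∈ G, n ≤ n' + Λ := by
      intro n hn n' hn'
      rw [hG, mem_filter] at hn hn'
      have h1 := mem_Ioc.1 (hF hn.1)
      have h2 := mem_Ioc.1 (hF hn'.1)
      have h3 := Nat.div_add_mod (n - X - 1) Λ
      have h4 := Nat.div_add_mod (n' - X - 1) Λ
      have h5 := Nat.mod_lt (n - X - 1) (show 0 < Λ by omega)
      rw [hn.2] at h3
      rw [hn'.2] at h4
      generalize Λ * b = q at h3 h4
      omega
    have hinj : Set.InjOn (fun n => n / L) (G.filter (fun n => n % L = s)) := by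
      intro n hn n' hn' h
      rw [mem_coe, mem_filter] at hn hn'
      have h1 := Nat.div_add_mod n L
      have h2 := Nat.div_add_mod n' L
      simp only at h
      rw [h, hn.2] at h1
      rw [hn'.2] at h2
      omega
    have hbl := block (p := p) (fun k => ψ (x ^ s * D ^ k * E)) (K s) (ν s) (j := j) (Λ := Λ) (by
      intro hdv
      apply hK s
      have h1 : x ^ s * D ^ K s * E = ∑ k ∈ range (p ^ j), (a k : A) * (x ^ s * D ^ (K s + k + 1)) := by
        rw [hEdef, mul_sum]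
        apply sum_congr rfl
        intro k _
        rw [add_assoc, pow_add]
        ring
      obtain ⟨P, hP⟩ : ∃ P, p ^ j = P + 1 := ⟨p ^ j - 1, by
        have : 0 < p ^ j := Nat.pow_pos hp.out.pos
        omega⟩
      rw [h1, map_sum, hP, sum_range_succ'] at hdv
      simp only [psi_int, ha0, one_mul, add_zero] at hdv
      have h2 : (p : ℤ) ^ (ν s + 1) ∣ ∑ k ∈ range P, a (k + 1) * ψ (x ^ s * D ^ (K s + (k + 1) + 1)) := by
        apply dvd_sum
        intro k _
        have h3 := hν s (K s + (k + 1))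
        have h4 : (p : ℤ) ∣ a (k + 1) := (dvd_pow_self _ (by omega)).trans (hak (k + 1))
        rw [pow_succ, mul_comm]
        exact mul_dvd_mul h4 h3
      have h3 := dvd_sub hdv h2
      rwa [add_sub_cancel_left] at h3) hΛ1 (fun m => ψ (x ^ (s + L * m) * E)) (fun m => newton p ψ x D E hx s m)
      ((G.filter (fun n => n % L = s)).image (fun n => n / L)) (by
        rw [card_image_of_injOn hinj]
        have := hμs s
        omega) (by
        intro m hm m' hm'
        rw [mem_image] at hm hm'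
        obtain ⟨n, hn, rfl⟩ := hm
        obtain ⟨n', hn', rfl⟩ := hm'
        rw [mem_filter] at hn hn'
        have h1 := hclose n hn.1 n' hn'.1
        calc n / L ≤ (n' + Λ) / L := Nat.div_le_div_right h1
          _ ≤ (n' + L * Λ) / L := Nat.div_le_div_right (by nlinarith)
          _ = n' / L + Λ := Nat.add_mul_div_left _ _ (by omega)) (by
        intro m hm
        rw [mem_image] at hm
        obtain ⟨n, hn, rfl⟩ := hm
        rw [mem_filter] at hn
        have h1 := Nat.div_add_mod n L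
        have h2 : s + L * (n / L) = n := by rw [← hn.2]; omega
        rw [h2]
        rw [hG, mem_filter] at hn
        exact hbad n hn.1.1)
    -- contradiction
    have hp1 : (1 : ℝ) < p := by exact_mod_cast hp.out.one_lt
    have hms := hμs s
    have h1 : (Λ : ℝ) ^ (2 * K s + ν s) ≤ (p : ℝ) ^ (j / c * μ) := by
      calc (Λ : ℝ) ^ (2 * K s + ν s) ≤ (Λ : ℝ) ^ μ := pow_le_pow_right₀ (by exact_mod_cast hΛ1) hms
        _ = (2 : ℝ) ^ (j / c * μ) := by rw [hΛ]; push_cast; rw [← pow_mul]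
        _ ≤ (p : ℝ) ^ (j / c * μ) := pow_le_pow_left₀ (by norm_num) (by exact_mod_cast hp.out.two_le) _
    have h2 : (p : ℝ) ^ (2 * K s + ν s) ≤ (p : ℝ) ^ μ := pow_le_pow_right₀ hp1.le hms
    have h3 : (p : ℝ) ^ (j + 1) ≤ (p : ℝ) ^ (μ + j / c * μ) := by
      rw [pow_add (p : ℝ) μ]
      exact hbl.trans (mul_le_mul h2 h1 (by positivity) (by positivity))
    have h4 : j + 1 ≤ μ + j / c * μ := (pow_le_pow_iff_right₀ hp1).1 h3
    have h5 : j / c * c ≤ j := Nat.div_mul_le_self j c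
    have h6 : j / c * (2 * μ) ≤ j / c * c := Nat.mul_le_mul_left _ (by omega)
    have h7 : j / c * (2 * μ) = 2 * (j / c * μ) := by ring
    omega
  have hcard := Finset.card_le_mul_card_image_of_maps_to (s := F) (t := range (Q / Λ + 1))
    (f := fun n => (n - X - 1) / Λ) (by
      intro n hn
      have h1 := mem_Ioc.1 (hF hn)
      rw [mem_range]
      have h2 : (n - X - 1) / Λ ≤ Q / Λ := Nat.div_le_div_right (by omega)
      omega) (L * μ) hfib
  rw [card_range] at hcard
  exact hcard.trans (Nat.mul_le_mul_right _ hc2)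

end

theorem LocU.mono {p L c W W' : ℕ} {f : ℕ → ℤ} (h : LocU p L c W f) (hW : W ≤ W') : LocU p L c W' f := by
  intro j
  obtain ⟨B, h1, h2⟩ := h j
  exact ⟨B, fun X Q F hF hb => (h1 X Q F hF hb).trans (Nat.mul_le_mul_right _ (Nat.mul_le_mul_left _ hW)), h2⟩

/-- multiplication by a power of `p`, and addition of a constant -/
theorem LocU.scale {p L c : ℕ} (hp : p ≠ 0) (hc : 1 ≤ c) {f f' : ℕ → ℤ} (h : LocU p L c 1 f') (s : ℕ)
    (hf : ∀ n n' : ℕ, f n - f n' = (p : ℤ) ^ s * (f' n - f' n')) : LocU p L c (2 ^ (s + 1)) f := by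
  classical
  intro j
  rcases Nat.lt_or_ge j s with hj | hj
  · refine ⟨fun _ => True, ?_, fun n hn => absurd trivial hn⟩
    intro X Q F hF _
    have h1 := card_le_card hF
    rw [Nat.card_Ioc] at h1
    have h2 : 2 ^ (j / c) ≤ 2 ^ s := Nat.pow_le_pow_right (by norm_num) ((Nat.div_le_self _ _).trans hj.le)
    have h3 : Q < 2 ^ (j / c) * (Q / 2 ^ (j / c) + 1) := Nat.lt_mul_div_succ Q (by positivity)
    calc F.card ≤ Q := by omega
      _ ≤ 2 ^ (j / c) * (Q / 2 ^ (j / c) + 1) := h3.le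
      _ ≤ 2 ^ s * (Q / 2 ^ (j / c) + 1) := Nat.mul_le_mul_right _ h2
      _ ≤ c * 2 ^ (s + 1) * (Q / 2 ^ (j / c) + 1) := by
          apply Nat.mul_le_mul_right
          rw [pow_succ]
          nlinarith [Nat.one_le_two_pow (n := s)]
  · obtain ⟨i, rfl⟩ := Nat.exists_eq_add_of_le hj
    obtain ⟨B, hB1, hB2⟩ := h i
    refine ⟨B, ?_, ?_⟩
    · intro X Q F hF hb
      have h1 := hB1 X Q F hF hb
      rw [mul_one] at h1
      refine h1.trans ?_
      have h2 : (s + i) / c ≤ s + i / c := by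
        have h3 : (s + i) / c ≤ (i + s * c) / c := Nat.div_le_div_right (by nlinarith)
        rw [Nat.add_mul_div_right _ _ (by omega)] at h3
        omega
      have h3 : Q / 2 ^ (i / c) ≤ 2 ^ s * (Q / 2 ^ ((s + i) / c) + 1) := by
        have h4 : Q < 2 ^ ((s + i) / c) * (Q / 2 ^ ((s + i) / c) + 1) := Nat.lt_mul_div_succ Q (by positivity)
        have h5 : 2 ^ ((s + i) / c) ≤ 2 ^ (i / c) * 2 ^ s := by
          rw [← pow_add]; exact Nat.pow_le_pow_right (by norm_num) (by omega)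
        apply Nat.div_le_of_le_mul
        calc Q ≤ 2 ^ ((s + i) / c) * (Q / 2 ^ ((s + i) / c) + 1) := h4.le
          _ ≤ 2 ^ (i / c) * 2 ^ s * (Q / 2 ^ ((s + i) / c) + 1) := Nat.mul_le_mul_right _ h5
          _ = _ := by ring
      have h6 : 1 ≤ 2 ^ s * (Q / 2 ^ ((s + i) / c) + 1) := Nat.one_le_iff_ne_zero.2 (by positivity)
      calc c * (Q / 2 ^ (i / c) + 1) ≤ c * (2 ^ s * (Q / 2 ^ ((s + i) / c) + 1) + 2 ^ s * (Q / 2 ^ ((s + i) / c) + 1)) :=
            Nat.mul_le_mul_left _ (by omega)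
        _ = c * 2 ^ (s + 1) * (Q / 2 ^ ((s + i) / c) + 1) := by ring
    · intro n hn t N hN
      rw [hf] at hN
      rcases Nat.lt_or_ge N s with hlt | hge
      · refine (pow_dvd_pow _ ?_).trans (Dvd.intro_left _ rfl)
        omega
      · obtain ⟨M, rfl⟩ := Nat.exists_eq_add_of_le hge
        rw [pow_add] at hN
        have hp0 : (p : ℤ) ^ s ≠ 0 := pow_ne_zero _ (by exact_mod_cast hp)
        have h1 := (mul_dvd_mul_iff_left hp0).1 hN
        have e : n + L * p ^ (s + i) * t = n + L * p ^ i * (p ^ s * t) := by rw [pow_add]; ring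
        rw [e] at h1
        have h2 := hB2 n hn (p ^ s * t) M h1
        rw [pow_add]
        refine (mul_dvd_mul_left _ h2).trans ⟨1, ?_⟩
        push_cast
        ring

end Pool.Agent.T2H58.LU
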