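import Pool.Agent.T2H58.LU.Dif
import Pool.Agent.T2H58.LU.Cls

/-! The integer parts of a smooth function on a dyadic block are spread out modulo small `q`. -/

set_option autoImplicit false

namespace Pool.Agent.T2H58.LU

open Finset
open Pool.Agent.Helper153.Vdc

theorem ee_re (x : ℝ) : (ee x).re = Real.cos (2 * Real.pi * x) := by
  unfold ee
  have e : (2 * Real.pi * x * Complex.I : ℂ) = ((2 * Real.pi * x : ℝ) : ℂ) * Complex.I := by push_cast; ring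
  rw [e, Complex.exp_ofReal_mul_I_re]

theorem half_le_re {q : ℕ} (hq : 1 ≤ q) {y : ℝ} {z : ℤ} (hy : |y - z| ≤ 1 / (2 * q)) {h : ℕ} (hh : h ≤ q / 4) :
    1 / 2 ≤ (ee (h * y)).re := by
  have hq0 : (0 : ℝ) < q := by exact_mod_cast hq
  have h1 : (h : ℝ) ≤ q / 4 := by
    have h2 : 4 * h ≤ q := by omega
    have h3 : (4 : ℝ) * h ≤ q := by exact_mod_cast h2
    linarith
  rw [ee_re]
  have e : 2 * Real.pi * (h * y) = 2 * Real.pi * (h * (y - z)) + (((h : ℤ) * z : ℤ) : ℝ) * (2 * Real.pi) := by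
    push_cast; ring
  rw [e, Real.cos_add_int_mul_two_pi]
  obtain ⟨u, hu⟩ : ∃ u, u = (h : ℝ) * (y - z) := ⟨_, rfl⟩
  rw [← hu]
  have hu1 : |u| ≤ 1 / 8 := by
    rw [hu, abs_mul, Nat.abs_cast]
    calc (h : ℝ) * |y - z| ≤ q / 4 * (1 / (2 * q)) := by gcongr
      _ = 1 / 8 := by field_simp; norm_num
  have h2 := Real.one_sub_sq_div_two_le_cos (x := 2 * Real.pi * u)
  have h3 : u ^ 2 ≤ (1 / 8) ^ 2 := by rw [← sq_abs]; exact pow_le_pow_left₀ (abs_nonneg _) hu1 2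
  have h4 := Real.pi_lt_d2
  have h5 := Real.pi_pos
  have h6 : Real.pi ^ 2 ≤ 3.15 ^ 2 := pow_le_pow_left₀ h5.le h4.le 2
  have h7 : Real.pi ^ 2 * u ^ 2 ≤ 3.15 ^ 2 * (1 / 8) ^ 2 := mul_le_mul h6 h3 (sq_nonneg _) (by norm_num)
  nlinarith

/-- The second moment. -/
theorem sq_sum_le (S : Finset ℕ) (y : ℕ → ℝ) (H : ℕ) :
    ∑ n ∈ S, ‖∑ h ∈ range H, ee (h * y n)‖ ^ 2 ≤
      ∑ h ∈ range H, ∑ h' ∈ range H, ‖∑ n ∈ S, ee (h * y n - h' * y n)‖ := by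
  have h1 : ((∑ n ∈ S, ‖∑ h ∈ range H, ee (h * y n)‖ ^ 2 : ℝ) : ℂ) =
      ∑ h ∈ range H, ∑ h' ∈ range H, ∑ n ∈ S, ee (h * y n - h' * y n) := by
    rw [Complex.ofReal_sum]
    have h2 : ∀ n ∈ S, ((‖∑ h ∈ range H, ee (h * y n)‖ ^ 2 : ℝ) : ℂ) =
        ∑ h ∈ range H, ∑ h' ∈ range H, ee (h * y n - h' * y n) := by
      intro n _
      have h3 : ((‖∑ h ∈ range H, ee (h * y n)‖ ^ 2 : ℝ) : ℂ) =
          (∑ h ∈ range H, ee (h * y n)) * (starRingEnd ℂ) (∑ h ∈ range H, ee (h * y n)) := by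
        rw [Complex.mul_conj, Complex.normSq_eq_norm_sq]
      rw [h3, map_sum, sum_mul_sum]
      exact sum_congr rfl fun h _ => sum_congr rfl fun h' _ => ee_mul_conj _ _
    rw [sum_congr rfl h2, sum_comm]
    apply sum_congr rfl
    intro h _
    rw [sum_comm]
  have h2 : 0 ≤ ∑ n ∈ S, ‖∑ h ∈ range H, ee (h * y n)‖ ^ 2 := sum_nonneg fun n _ => sq_nonneg _
  calc ∑ n ∈ S, ‖∑ h ∈ range H, ee (h * y n)‖ ^ 2 = ‖((∑ n ∈ S, ‖∑ h ∈ range H, ee (h * y n)‖ ^ 2 : ℝ) : ℂ)‖ := by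
        rw [Complex.norm_real, Real.norm_of_nonneg h2]
    _ = ‖∑ h ∈ range H, ∑ h' ∈ range H, ∑ n ∈ S, ee (h * y n - h' * y n)‖ := by rw [h1]
    _ ≤ ∑ h ∈ range H, ‖∑ h' ∈ range H, ∑ n ∈ S, ee (h * y n - h' * y n)‖ := norm_sum_le _ _
    _ ≤ _ := sum_le_sum fun h _ => norm_sum_le _ _

theorem sum_ee_const (S : Finset ℕ) (g : ℕ → ℝ) (c : ℝ) : ‖∑ n ∈ S, ee (g n - c)‖ = ‖∑ n ∈ S, ee (g n)‖ := by
  have h : ∑ n ∈ S, ee (g n - c) = (∑ n ∈ S, ee (g n)) * ee (-c) := by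
    rw [sum_mul]
    exact sum_congr rfl fun n _ => by rw [sub_eq_add_neg, ee_add]
  rw [h, norm_mul, ee_norm, mul_one]

/-- Counting by exponential sums. -/
theorem card_le_of_exp {X : ℕ} {g : ℕ → ℝ} {q : ℕ} (hq : 1 ≤ q) {B : ℝ} (hB : 0 ≤ B)
    (hexp : ∀ a : ℕ, 1 ≤ a → a < q → ‖∑ n ∈ Ioc X (2 * X), ee ((a : ℝ) / q * g n)‖ ≤ B) (v : ℤ) :
    (((Ioc X (2 * X)).filter (fun n => ⌊g n⌋ % (q : ℤ) = v)).card : ℝ) ≤ 16 * X / q + 4 * B := by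
  have hq0 : (0 : ℝ) < q := by exact_mod_cast hq
  obtain ⟨y, hy⟩ : ∃ y : ℕ → ℝ, y = fun n => (g n - (v + 1 / 2)) / q := ⟨_, rfl⟩
  obtain ⟨H, hH⟩ : ∃ H, H = q / 4 + 1 := ⟨_, rfl⟩
  have hHq : H ≤ q := by omega
  have hH1 : 1 ≤ H := by omega
  have hH0 : (0 : ℝ) < H := by exact_mod_cast hH1
  have hHr : (q : ℝ) / 4 ≤ H := by
    have : q ≤ 4 * H := by omega
    have : (q : ℝ) ≤ 4 * H := by exact_mod_cast this
    linarith
  set F := (Ioc X (2 * X)).filter (fun n => ⌊g n⌋ % (q : ℤ) = v) with hF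
  have h1 : ∀ n ∈ F, ((H : ℝ) / 2) ^ 2 ≤ ‖∑ h ∈ range H, ee (h * y n)‖ ^ 2 := by
    intro n hn
    rw [hF, mem_filter] at hn
    apply pow_le_pow_left₀ (by positivity)
    have h2 : ∀ h ∈ range H, 1 / 2 ≤ (ee (h * y n)).re := by
      intro h hh
      rw [mem_range] at hh
      apply half_le_re (z := ⌊g n⌋ / (q : ℤ)) hq _ (by omega)
      have h3 : (⌊g n⌋ : ℤ) = (q : ℤ) * (⌊g n⌋ / (q : ℤ)) + v := by
        rw [← hn.2]; exact (Int.mul_ediv_add_emod _ _).symm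
      have h4 : (⌊g n⌋ : ℝ) = (q : ℝ) * ((⌊g n⌋ / (q : ℤ) : ℤ) : ℝ) + v := by exact_mod_cast h3
      have h5 : y n - ((⌊g n⌋ / (q : ℤ) : ℤ) : ℝ) = (g n - ⌊g n⌋ - 1 / 2) / q := by
        rw [hy, h4]; field_simp; ring
      rw [h5, abs_div, abs_of_pos hq0]
      have h6 := Int.floor_le (g n)
      have h7 := Int.lt_floor_add_one (g n)
      have h8 : |g n - ⌊g n⌋ - 1 / 2| ≤ 1 / 2 := by rw [abs_le]; constructor <;> linarith
      calc |g n - ⌊g n⌋ - 1 / 2| / q ≤ 1 / 2 / q := by gcongr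
        _ = 1 / (2 * q) := by rw [div_div]
    calc (H : ℝ) / 2 = ∑ h ∈ range H, (1 / 2 : ℝ) := by rw [sum_const, card_range, nsmul_eq_mul]; ring
      _ ≤ ∑ h ∈ range H, (ee (h * y n)).re := sum_le_sum h2
      _ = (∑ h ∈ range H, ee (h * y n)).re := by rw [Complex.re_sum]
      _ ≤ ‖∑ h ∈ range H, ee (h * y n)‖ := Complex.re_le_norm _
  have h2 : (F.card : ℝ) * ((H : ℝ) / 2) ^ 2 ≤ ∑ n ∈ Ioc X (2 * X), ‖∑ h ∈ range H, ee (h * y n)‖ ^ 2 := by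
    calc (F.card : ℝ) * ((H : ℝ) / 2) ^ 2 = ∑ n ∈ F, ((H : ℝ) / 2) ^ 2 := by rw [sum_const, nsmul_eq_mul]
      _ ≤ ∑ n ∈ F, ‖∑ h ∈ range H, ee (h * y n)‖ ^ 2 := sum_le_sum h1
      _ ≤ _ := sum_le_sum_of_subset_of_nonneg (filter_subset _ _) fun _ _ _ => sq_nonneg _
  have hone : ∀ a : ℕ, 1 ≤ a → a < q → ‖∑ n ∈ Ioc X (2 * X), ee ((a : ℝ) * y n)‖ ≤ B := by
    intro a ha1 ha2
    have h3 : ∀ n, (a : ℝ) * y n = (a : ℝ) / q * g n - (a : ℝ) / q * (v + 1 / 2) := by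
      intro n; rw [hy]; field_simp
    have h4 : ∑ n ∈ Ioc X (2 * X), ee ((a : ℝ) * y n) =
        ∑ n ∈ Ioc X (2 * X), ee ((fun n => (a : ℝ) / q * g n) n - (a : ℝ) / q * (v + 1 / 2)) :=
      sum_congr rfl fun n _ => by rw [h3]
    rw [h4, sum_ee_const]
    exact hexp a ha1 ha2
  have hpair : ∀ h ∈ range H, ∀ h' ∈ range H,
      ‖∑ n ∈ Ioc X (2 * X), ee (h * y n - h' * y n)‖ ≤ (if h = h' then (X : ℝ) else 0) + B := by
    intro h hh h' hh'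
    rw [mem_range] at hh hh'
    rcases lt_trichotomy h h' with h3 | h3 | h3
    · have h4 : ∀ n, (h : ℝ) * y n - h' * y n = -(((h' - h : ℕ) : ℝ) * y n) := by
        intro n; rw [Nat.cast_sub h3.le]; ring
      have h5 : ∑ n ∈ Ioc X (2 * X), ee (h * y n - h' * y n) = ∑ n ∈ Ioc X (2 * X), ee (-(fun n => ((h' - h : ℕ) : ℝ) * y n) n) :=
        sum_congr rfl fun n _ => by rw [h4]
      rw [h5, sum_ee_neg, if_neg h3.ne, zero_add]
      exact hone _ (by omega) (by omega)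
    · subst h3
      rw [if_pos rfl]
      have h4 : ‖∑ n ∈ Ioc X (2 * X), ee (h * y n - h * y n)‖ ≤ X := by
        refine (norm_sum_le _ _).trans ?_
        rw [sum_congr rfl fun n _ => ee_norm _, sum_const, Nat.card_Ioc, nsmul_eq_mul, mul_one]
        have : 2 * X - X = X := by omega
        rw [this]
      linarith
    · have h4 : ∀ n, (h : ℝ) * y n - h' * y n = (((h - h' : ℕ) : ℝ) * y n) := by
        intro n; rw [Nat.cast_sub h3.le]; ring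
      have h5 : ∑ n ∈ Ioc X (2 * X), ee (h * y n - h' * y n) = ∑ n ∈ Ioc X (2 * X), ee (((h - h' : ℕ) : ℝ) * y n) :=
        sum_congr rfl fun n _ => by rw [h4]
      rw [h5, if_neg h3.ne', zero_add]
      exact hone _ (by omega) (by omega)
  have h3 : ∑ h ∈ range H, ∑ h' ∈ range H, ‖∑ n ∈ Ioc X (2 * X), ee (h * y n - h' * y n)‖ ≤ H * X + H * (H * B) := by
    calc _ ≤ ∑ h ∈ range H, ∑ h' ∈ range H, ((if h = h' then (X : ℝ) else 0) + B) :=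
          sum_le_sum fun h hh => sum_le_sum fun h' hh' => hpair h hh h' hh'
      _ = ∑ h ∈ range H, ((X : ℝ) + H * B) := by
          apply sum_congr rfl
          intro h hh
          rw [sum_add_distrib, sum_ite_eq, if_pos hh, sum_const, card_range, nsmul_eq_mul]
      _ = H * X + H * (H * B) := by rw [sum_const, card_range, nsmul_eq_mul]; ring
  have h4 : (F.card : ℝ) * ((H : ℝ) / 2) ^ 2 ≤ H * X + H * (H * B) := (h2.trans (sq_sum_le _ _ _)).trans h3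
  have h5 : (F.card : ℝ) ≤ 4 * X / H + 4 * B := by
    have e : 4 * (X : ℝ) / H + 4 * B = (H * X + H * (H * B)) / ((H : ℝ) / 2) ^ 2 := by field_simp; ring
    rw [e, le_div_iff₀ (by positivity)]
    exact h4
  refine h5.trans ?_
  have h6 : 4 * (X : ℝ) / H ≤ 16 * X / q := by
    rw [div_le_div_iff₀ hH0 hq0]
    have hX0 : (0 : ℝ) ≤ X := Nat.cast_nonneg _
    nlinarith
  linarith

/-- The classes modulo `q` have few members. -/
theorem fib_block (k : ℕ) (hk : 2 ≤ k) (A : ℝ) (hA : 1 ≤ A) (η : ℝ) (hη : 0 < η) (hη1 : η < 1) :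
    ∃ θ : ℝ, 0 < θ ∧ θ ≤ 1 ∧ ∃ C : ℝ, 1 ≤ C ∧ ∀ (X : ℕ) (G : ℕ → ℝ → ℝ) (s lam : ℝ), 1 ≤ X → Blk k A G X s lam →
      (X : ℝ) ^ (-2 + η) ≤ lam → lam ≤ (X : ℝ) ^ (-η) → ∀ q : ℕ, 1 ≤ q → (q : ℝ) ≤ (X : ℝ) ^ θ → ∀ v : ℤ,
      (((Ioc X (2 * X)).filter (fun n : ℕ => ⌊G 0 n⌋ % (q : ℤ) = v)).card : ℝ) ≤ C * (X : ℝ) / q := by
  obtain ⟨σ, hσ, C, hC, h⟩ := exp_block k hk A hA (η / 2) (by linarith) (by linarith)
  refine ⟨min (min σ (η / 2)) 1, by positivity, min_le_right _ _, 16 + 4 * C, by linarith, ?_⟩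
  intro X G s lam hX hB h1 h2 q hq hqX v
  have hX0 : (1 : ℝ) ≤ X := by exact_mod_cast hX
  have hXp : (0 : ℝ) < X := by linarith
  have hq0 : (0 : ℝ) < q := by exact_mod_cast hq
  have hq1 : (q : ℝ) ≤ (X : ℝ) ^ σ := hqX.trans (Real.rpow_le_rpow_of_exponent_le hX0 ((min_le_left _ _).trans (min_le_left _ _)))
  have hq2 : (q : ℝ) ≤ (X : ℝ) ^ (η / 2) := hqX.trans (Real.rpow_le_rpow_of_exponent_le hX0 ((min_le_left _ _).trans (min_le_right _ _)))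
  have hlam : 0 < lam := lt_of_lt_of_le (Real.rpow_pos_of_pos hXp _) h1
  have h3 := card_le_of_exp (X := X) (g := fun n => G 0 n) hq (B := C * (X : ℝ) ^ (1 - σ)) (by positivity) (by
    intro a ha1 ha2
    have ha0 : (1 : ℝ) ≤ a := by exact_mod_cast ha1
    have ha3 : (a : ℝ) ≤ q := by exact_mod_cast ha2.le
    have hβ : 0 ≤ (a : ℝ) / q := by positivity
    have h4 := h X (fun j x => (a : ℝ) / q * G j x) s ((a : ℝ) / q * lam) hX (hB.smul hβ) (by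
      calc (X : ℝ) ^ (-2 + η / 2) = (X : ℝ) ^ (-(η / 2)) * (X : ℝ) ^ (-2 + η) := by
            rw [← Real.rpow_add hXp]; congr 1; ring
        _ ≤ (a : ℝ) / q * lam := by
            apply mul_le_mul _ h1 (by positivity) hβ
            rw [Real.rpow_neg hXp.le, ← one_div]
            rw [div_le_div_iff₀ (by positivity) hq0]
            nlinarith) (by
      calc (a : ℝ) / q * lam ≤ 1 * lam := by
            apply mul_le_mul_of_nonneg_right _ hlam.le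
            rw [div_le_one hq0]; exact ha3
        _ = lam := one_mul _
        _ ≤ (X : ℝ) ^ (-η) := h2
        _ ≤ (X : ℝ) ^ (-(η / 2)) := Real.rpow_le_rpow_of_exponent_le hX0 (by linarith))
    exact h4) v
  refine h3.trans ?_
  have h4 : (X : ℝ) ^ (1 - σ) ≤ X / q := by
    rw [Real.rpow_sub hXp, Real.rpow_one]
    gcongr
  calc 16 * (X : ℝ) / q + 4 * (C * (X : ℝ) ^ (1 - σ)) ≤ 16 * (X : ℝ) / q + 4 * (C * (X / q)) := by gcongr
    _ = (16 + 4 * C) * X / q := by ring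

/-- The condition used for Möller's maps. -/
theorem cls_block (d : ℕ) (hd : 2 ≤ d) (k : ℕ) (hk : 2 ≤ k) (A : ℝ) (hA : 1 ≤ A) (η : ℝ) (hη : 0 < η) (hη1 : η < 1) :
    ∃ θ : ℝ, 0 < θ ∧ θ ≤ 1 ∧ ∃ C : ℝ, 1 ≤ C ∧ ∀ (X : ℕ) (G : ℕ → ℝ → ℝ) (s lam : ℝ), 1 ≤ X → Blk k A G X s lam →
      (X : ℝ) ^ (-2 + η) ≤ lam → lam ≤ (X : ℝ) ^ (-η) →
      ClsLe d (fun n : ℕ => ⌊G 0 n⌋) (Ioc X (2 * X)) (C * (X : ℝ) ^ (1 - θ)) ((X : ℝ) ^ θ) := by
  obtain ⟨θ, hθ, hθ1, C, hC, h⟩ := fib_block k hk A hA η hη hη1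
  have hd1 : (1 : ℝ) ≤ d := by exact_mod_cast (by omega : 1 ≤ d)
  refine ⟨θ, hθ, hθ1, C * d, by nlinarith, ?_⟩
  intro X G s lam hX hB h1 h2 N hN1 hN2 v
  have hX0 : (1 : ℝ) ≤ X := by exact_mod_cast hX
  have hXp : (0 : ℝ) < X := by linarith
  have hdN : (0 : ℝ) < (d : ℝ) ^ N := by positivity
  have h3 := h X G s lam hX hB h1 h2 (d ^ N) (Nat.one_le_pow _ _ (by omega)) (by push_cast; exact hN1) v
  push_cast at h3
  refine h3.trans ?_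
  rw [div_le_iff₀ hdN]
  have h4 : (X : ℝ) = (X : ℝ) ^ (1 - θ) * (X : ℝ) ^ θ := by rw [← Real.rpow_add hXp]; simp
  have h5 : (X : ℝ) ^ θ ≤ (d : ℝ) ^ N * d := by rw [← pow_succ]; exact hN2.le
  have h6 : (X : ℝ) ^ (1 - θ) * (X : ℝ) ^ θ ≤ (X : ℝ) ^ (1 - θ) * ((d : ℝ) ^ N * d) :=
    mul_le_mul_of_nonneg_left h5 (by positivity)
  calc C * (X : ℝ) = C * ((X : ℝ) ^ (1 - θ) * (X : ℝ) ^ θ) := by rw [← h4]
    _ ≤ C * ((X : ℝ) ^ (1 - θ) * ((d : ℝ) ^ N * d)) := by gcongr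
    _ = C * d * (X : ℝ) ^ (1 - θ) * (d : ℝ) ^ N := by ring

end Pool.Agent.T2H58.LU
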