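import Pool.Agent.T2H58.LU.Spr
import Pool.Agent.T2H58.LR.Law

/-! The trajectories of the values of sequences with well spread values: the main count, uniformly in the sequence. -/

set_option autoImplicit false

namespace Pool.Agent.T2H58.LU

open Pool.Agent.T2H58.LR (bad_count class_sum)
open Finset Pool.Agent.H319R2.M Filter
open Pool.Agent.Y927.GP (Typ large typ_of conv scale mu card_classes Unb)

/-- Few small values. -/
theorem few {d : ℕ} (hd : 2 ≤ d) {c : ℕ} (hc : 1 ≤ c) {ε : ℝ} (hε : 0 < ε) (hε1 : ε ≤ 1) (Z : ℝ) (hZ : 1 ≤ Z) :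
    ∃ δ K : ℝ, 0 < δ ∧ δ < 1 ∧ 0 < K ∧ ∀ (W : ℕ) (f : ℕ → ℤ), 1 ≤ W → SprU d c W f →
      ∀ (X : ℕ) (Y : ℝ), 1 ≤ Y → ∀ A : Finset ℕ, A ⊆ Ioc X (X + ⌊Y⌋₊) →
      (∀ n ∈ A, |((f n : ℤ) : ℝ)| ≤ Z * Y ^ (1 - ε)) → (A.card : ℝ) ≤ K * W * Y ^ (1 - δ) := by
  classical
  have hd1 : (1 : ℝ) < d := by exact_mod_cast (by omega : 1 < d)
  have hd0 : (0 : ℝ) < d := by linarith
  have hcp : (0 : ℝ) < c := by exact_mod_cast hc
  set θ : ℝ := ε / 4 with hθ
  have hθ0 : 0 < θ := by positivity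
  obtain ⟨δ1, K1, hδ10, hδ11, hK1, hbc⟩ := bad_count hd hc hθ0
  set δ : ℝ := min δ1 (ε / 2) with hδ
  have hδ0 : 0 < δ := lt_min hδ10 (by positivity)
  have hδa : δ ≤ δ1 := min_le_left _ _
  have hδb : δ ≤ ε / 2 := min_le_right _ _
  have hδ1 : δ < 1 := lt_of_le_of_lt hδa hδ11
  refine ⟨δ, K1 + c * (3 * Z), hδ0, hδ1, by positivity, fun W f hW hS X Y hY A hA hsm => ?_⟩
  have hYp : 0 < Y := by linarith
  obtain ⟨N, hN1, hN2, hNM⟩ := scale d hd Y hY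
  have hN0 : (0 : ℝ) ≤ N := Nat.cast_nonneg _
  set j0 : ℕ := ⌊θ * N⌋₊ with hj0
  have hj0u : (j0 : ℝ) ≤ θ * N := Nat.floor_le (by positivity)
  obtain ⟨B, hB1, hB2⟩ := hS j0
  have h1 : ((A.filter B).card : ℝ) ≤ K1 * W * Y ^ (1 - δ) := by
    have h2 := hB1 X ⌊Y⌋₊ (A.filter B) ((filter_subset _ _).trans hA) (fun n hn => (mem_filter.1 hn).2)
    have h3 : ((A.filter B).card : ℝ) ≤ (c : ℝ) * W * (((⌊Y⌋₊ / 2 ^ (j0 / c) : ℕ) : ℝ) + 1) := by exact_mod_cast h2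
    calc ((A.filter B).card : ℝ) ≤ (c : ℝ) * W * (((⌊Y⌋₊ / 2 ^ (j0 / c) : ℕ) : ℝ) + 1) := h3
      _ = W * ((c : ℝ) * (((⌊Y⌋₊ / 2 ^ (j0 / c) : ℕ) : ℝ) + 1)) := by ring
      _ ≤ W * (K1 * Y ^ (1 - δ1)) := by
          apply mul_le_mul_of_nonneg_left (hbc N Y hY hN2) (Nat.cast_nonneg _)
      _ ≤ W * (K1 * Y ^ (1 - δ)) := by gcongr
      _ = _ := by ring
  have h2 : ((A.filter (fun n => ¬ B n)).card : ℝ) ≤ c * (3 * Z) * W * Y ^ (1 - δ) := by
    obtain ⟨V, hV⟩ : ∃ V : ℤ, V = ⌊Z * Y ^ (1 - ε)⌋ := ⟨_, rfl⟩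
    have hV1 : 1 ≤ Z * Y ^ (1 - ε) := by
      have := Real.one_le_rpow hY (by linarith : 0 ≤ 1 - ε)
      nlinarith
    have hV0 : 0 ≤ V := by rw [hV]; exact Int.floor_nonneg.2 (by linarith)
    have hVle : (V : ℝ) ≤ Z * Y ^ (1 - ε) := by rw [hV]; exact Int.floor_le _
    have h3 := class_sum hB2 hNM ((filter_subset (fun n => ¬ B n) A).trans hA) (fun n hn => (mem_filter.1 hn).2)
      ((Icc (-V) V).image (fun u => u % (d : ℤ) ^ N)) (by
        intro n hn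
        rw [mem_filter] at hn
        have h4 := hsm n hn.1
        rw [abs_le] at h4
        apply mem_image_of_mem
        rw [mem_Icc]
        constructor
        · have h5 : -f n ≤ V := by
            rw [hV]; apply Int.le_floor.2; push_cast; linarith [h4.1]
          omega
        · rw [hV]; exact Int.le_floor.2 h4.2)
    have h4 : (((Icc (-V) V).image (fun u => u % (d : ℤ) ^ N)).card : ℝ) ≤ 3 * Z * Y ^ (1 - ε) := by
      have h5 : ((Icc (-V) V).image (fun u => u % (d : ℤ) ^ N)).card ≤ (Icc (-V) V).card := card_image_le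
      rw [Int.card_Icc] at h5
      have h6 : ((V + 1 - -V).toNat : ℤ) = 2 * V + 1 := by rw [Int.toNat_of_nonneg (by omega)]; ring
      have h7 : (((Icc (-V) V).image (fun u => u % (d : ℤ) ^ N)).card : ℤ) ≤ 2 * V + 1 := by rw [← h6]; exact_mod_cast h5
      have h8 : (((Icc (-V) V).image (fun u => u % (d : ℤ) ^ N)).card : ℝ) ≤ 2 * (V : ℝ) + 1 := by exact_mod_cast h7
      linarith
    have h5 : ((d : ℝ) ^ (2 * j0)) ≤ Y ^ (ε / 2) := by
      calc (d : ℝ) ^ (2 * j0) = (d : ℝ) ^ (2 * (j0 : ℝ)) := by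
            rw [← Real.rpow_natCast]; push_cast; rfl
        _ ≤ (d : ℝ) ^ (2 * (θ * N)) := Real.rpow_le_rpow_of_exponent_le hd1.le (by linarith)
        _ = ((d : ℝ) ^ N) ^ (ε / 2) := by
            rw [← Real.rpow_natCast (d : ℝ) N, ← Real.rpow_mul hd0.le]
            congr 1
            rw [hθ]; ring
        _ ≤ Y ^ (ε / 2) := Real.rpow_le_rpow (by positivity) hN1 (by positivity)
    have h6 : ((A.filter (fun n => ¬ B n)).card : ℝ) ≤ (c : ℝ) * W * (d : ℝ) ^ (2 * j0) *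
        (((Icc (-V) V).image (fun u => u % (d : ℤ) ^ N)).card : ℝ) := by exact_mod_cast h3
    calc ((A.filter (fun n => ¬ B n)).card : ℝ) ≤ (c : ℝ) * W * (d : ℝ) ^ (2 * j0) *
        (((Icc (-V) V).image (fun u => u % (d : ℤ) ^ N)).card : ℝ) := h6
      _ ≤ c * W * Y ^ (ε / 2) * (3 * Z * Y ^ (1 - ε)) := by gcongr
      _ = c * (3 * Z) * W * (Y ^ (ε / 2) * Y ^ (1 - ε)) := by ring
      _ = c * (3 * Z) * W * Y ^ (1 - ε / 2) := by
          rw [← Real.rpow_add hYp]; congr 2; ring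
      _ ≤ c * (3 * Z) * W * Y ^ (1 - δ) := by
          apply mul_le_mul_of_nonneg_left _ (by positivity)
          exact Real.rpow_le_rpow_of_exponent_le hY (by linarith)
  have h3 : (A.filter B).card + (A.filter (fun n => ¬ B n)).card = A.card := Finset.card_filter_add_card_filter_not _
  have h4 : (A.card : ℝ) = (A.filter B).card + (A.filter (fun n => ¬ B n)).card := by rw [← h3]; push_cast; rfl
  rw [h4]
  have e : (K1 + c * (3 * Z)) * W * Y ^ (1 - δ) = K1 * W * Y ^ (1 - δ) + c * (3 * Z) * W * Y ^ (1 - δ) := by ring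
  rw [e]
  linarith

/-- For all but few `n` of an interval with `f n` in `S_C` the trajectory of `f n` follows the law. -/
theorem law_main {g : GM} {b : ℤ → ℤ} {e : ℤ → ℕ} {C : Finset (ℤ × ℕ)} {ρ : ℤ × ℕ → ℝ} (hf : g.Fac b e)
    (hC : g.Cls e C ρ) {cS : ℕ} (hcS : 1 ≤ cS) {κ : ℝ} (hκ0 : 0 ≤ κ)
    (hκ : -mu g C ρ ≤ κ * Real.log g.d) (hκD : κ < 1) {ε : ℝ} (hε : 0 < ε) :
    ∃ δ K : ℝ, 0 < δ ∧ δ < 1 ∧ 0 < K ∧ ∀ (W : ℕ) (f : ℕ → ℤ), 1 ≤ W → SprU g.d cS W f → ∀ (X : ℕ) (Y : ℝ), 1 ≤ Y →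
      ∀ A : Finset ℕ, A ⊆ Ioc X (X + ⌊Y⌋₊) →
        (∀ n ∈ A, f n ∈ g.SC C ∧ ¬ Typ g (mu g C ρ) ε Y (f n)) →
          (A.card : ℝ) ≤ K * W * Y ^ (1 - δ) := by
  classical
  set μ := mu g C ρ with hμ
  have hd2 := g.two_le
  have hd1 : (1 : ℝ) < g.d := by have := g.dr; linarith
  have hd0 : (0 : ℝ) < g.d := by linarith
  have hL : 0 < Real.log g.d := Real.log_pos hd1
  set ε1 : ℝ := min ε ((1 - κ) / 4) with hε1
  have hε10 : 0 < ε1 := lt_min hε (by linarith)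
  have hε1ε : ε1 ≤ ε := min_le_left _ _
  have hε1β : ε1 ≤ (1 - κ) / 4 := min_le_right _ _
  have hε11 : ε1 ≤ 1 := by linarith
  obtain ⟨δ3, K3, hδ30, hδ31, hK3, hfew⟩ := few hd2 hcS hε10 hε11 1 le_rfl
  have hcSp : (0 : ℝ) < cS := by exact_mod_cast hcS
  obtain ⟨c, K2, hc, hK2, hclass⟩ := card_classes hf hC (η := ε1 / 4 * Real.log g.d) (by positivity)
  set θ : ℝ := min 1 (c / (4 * Real.log g.d)) with hθ
  have hθ0 : 0 < θ := lt_min one_pos (by positivity)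
  have hθ1 : θ ≤ 1 := min_le_left _ _
  have hθc : 2 * θ * Real.log g.d ≤ c / 2 := by
    have h1 : θ ≤ c / (4 * Real.log g.d) := min_le_right _ _
    have h2 := mul_le_mul_of_nonneg_right h1 hL.le
    have e1 : c / (4 * Real.log g.d) * Real.log g.d = c / 4 := by field_simp
    rw [e1] at h2
    linarith
  obtain ⟨δ1, K1, hδ10, hδ11, hK1, hbc⟩ := bad_count hd2 hcS hθ0
  obtain ⟨δ2, K4, hδ20, hδ21, hK4, hconv2⟩ := conv g.d hd2 (c := c / 2) (by positivity)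
  obtain ⟨Y0, hY01, hlarge⟩ := large g.d hd2 hθ0 (show 0 < ε1 / 4 by positivity)
    (show 0 < (1 - κ) / 2 by linarith) g.R_nonneg 0
  set δ : ℝ := min (min δ1 δ2) δ3 with hδ
  have hδ0 : 0 < δ := lt_min (lt_min hδ10 hδ20) hδ30
  have hδa : δ ≤ δ1 := (min_le_left _ _).trans (min_le_left _ _)
  have hδb : δ ≤ δ2 := (min_le_left _ _).trans (min_le_right _ _)
  have hδc : δ ≤ δ3 := min_le_right _ _
  have hδ1 : δ < 1 := lt_of_le_of_lt hδa hδ11
  refine ⟨δ, K1 + cS * K2 * K4 + K3 + Y0, hδ0, hδ1, by positivity, ?_⟩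
  intro W f hW hS X Y hY A hA hbad
  have hWr : (1 : ℝ) ≤ W := by exact_mod_cast hW
  have hYp : 0 < Y := by linarith
  have hY1δ : 1 ≤ Y ^ (1 - δ) := Real.one_le_rpow hY (by linarith)
  obtain ⟨N, hN1, hN2, hNM⟩ := scale g.d hd2 Y hY
  have hN0 : (0 : ℝ) ≤ N := Nat.cast_nonneg _
  rcases lt_or_ge Y Y0 with hsmall | hbig
  · have h1 : (A.card : ℝ) ≤ Y := by
      have h2 := Finset.card_le_card hA
      rw [Nat.card_Ioc] at h2
      have h3 : X + ⌊Y⌋₊ - X = ⌊Y⌋₊ := by omega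
      rw [h3] at h2
      have h4 : (A.card : ℝ) ≤ ⌊Y⌋₊ := by exact_mod_cast h2
      exact h4.trans (Nat.floor_le hYp.le)
    calc (A.card : ℝ) ≤ Y := h1
      _ ≤ Y0 * 1 := by linarith
      _ ≤ Y0 * Y ^ (1 - δ) := by gcongr
      _ ≤ (K1 + cS * K2 * K4 + K3 + Y0) * Y ^ (1 - δ) := by
          apply mul_le_mul_of_nonneg_right _ (by positivity)
          have : 0 < K1 + cS * K2 * K4 + K3 := by positivity
          linarith
      _ ≤ (K1 + cS * K2 * K4 + K3 + Y0) * W * Y ^ (1 - δ) := by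
          apply mul_le_mul_of_nonneg_right _ (by positivity)
          exact le_mul_of_one_le_right (by positivity) hWr
  obtain ⟨-, hYε, hRN⟩ := hlarge Y hbig N hN1 hN2
  set j0 : ℕ := ⌊θ * N⌋₊ with hj0
  have hj0u : (j0 : ℝ) ≤ θ * N := Nat.floor_le (by positivity)
  obtain ⟨B, hB1, hB2⟩ := hS j0
  -- the exceptional sets
  set E1 := A.filter B with hE1
  set A0 := A.filter (fun n : ℕ => ¬ B n ∧ Y ^ (1 - ε1) ≤ |((f n : ℤ) : ℝ)|) with hA0
  set E3 := A.filter (fun n : ℕ => |((f n : ℤ) : ℝ)| ≤ 1 * Y ^ (1 - ε1)) with hE3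
  set V := A0.image (fun n : ℕ => f n % (g.d : ℤ) ^ N) with hV
  have hsub : A ⊆ E1 ∪ (A0 ∪ E3) := by
    intro n hn
    rw [mem_union, mem_union]
    by_cases h3 : |((f n : ℤ) : ℝ)| ≤ 1 * Y ^ (1 - ε1)
    · right; right; rw [hE3, mem_filter]; exact ⟨hn, h3⟩
    by_cases h1 : B n
    · left; rw [hE1, mem_filter]; exact ⟨hn, h1⟩
    · right; left
      rw [hA0, mem_filter]
      rw [one_mul] at h3
      exact ⟨hn, h1, (not_le.1 h3).le⟩
  have hcard : A.card ≤ E1.card + (A0.card + E3.card) :=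
    (Finset.card_le_card hsub).trans ((Finset.card_union_le _ _).trans
      (Nat.add_le_add_left (Finset.card_union_le _ _) _))
  have hQ1 : (E1.card : ℝ) ≤ K1 * W * Y ^ (1 - δ) := by
    have h2 := hB1 X ⌊Y⌋₊ E1 ((filter_subset _ _).trans hA) (fun n hn => (mem_filter.1 hn).2)
    have h3 : (E1.card : ℝ) ≤ (cS : ℝ) * W * (((⌊Y⌋₊ / 2 ^ (j0 / cS) : ℕ) : ℝ) + 1) := by exact_mod_cast h2
    calc (E1.card : ℝ) ≤ (cS : ℝ) * W * (((⌊Y⌋₊ / 2 ^ (j0 / cS) : ℕ) : ℝ) + 1) := h3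
      _ = W * ((cS : ℝ) * (((⌊Y⌋₊ / 2 ^ (j0 / cS) : ℕ) : ℝ) + 1)) := by ring
      _ ≤ W * (K1 * Y ^ (1 - δ1)) := by
          apply mul_le_mul_of_nonneg_left (hbc N Y hY hN2) (Nat.cast_nonneg _)
      _ ≤ W * (K1 * Y ^ (1 - δ)) := by gcongr
      _ = _ := by ring
  have hQ2 : (A0.card : ℝ) ≤ cS * K2 * K4 * W * Y ^ (1 - δ) := by
    have hVc : (V.card : ℝ) ≤ K2 * ((N + 1) * ((g.d : ℝ) ^ N * Real.exp (-(c * N)))) := by
      apply hclass N V
      intro v hv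
      rw [hV, mem_image] at hv
      obtain ⟨n, hn, rfl⟩ := hv
      rw [hA0, mem_filter] at hn
      obtain ⟨hnA, -, hbign⟩ := hn
      obtain ⟨hS, hT⟩ := hbad n hnA
      refine ⟨f n, hS, ?_, rfl⟩
      by_contra hU
      exact hT (typ_of g hκ0 hκ hε10 hε1ε hε1β hY hN1 hN2 hYε hRN hbign hU)
    have h1 : A0.card ≤ cS * W * g.d ^ (2 * j0) * V.card := class_sum hB2 hNM ((filter_subset _ _).trans hA : A0 ⊆ _) (fun n hn => (mem_filter.1 hn).2.1) V
      (fun n hn => by rw [hV]; exact mem_image_of_mem _ hn)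
    have h2 : (A0.card : ℝ) ≤ cS * W * (g.d : ℝ) ^ (2 * j0) * V.card := by exact_mod_cast h1
    have h4 : (g.d : ℝ) ^ (2 * j0) ≤ Real.exp (c / 2 * N) := by
      have h7 : (g.d : ℝ) ^ (2 * j0) = Real.exp (j0 * (2 * Real.log g.d)) := by
        have : (j0 : ℝ) * (2 * Real.log g.d) = ((2 * j0 : ℕ) : ℝ) * Real.log g.d := by push_cast; ring
        rw [this, Real.exp_nat_mul, Real.exp_log hd0]
      rw [h7]
      apply Real.exp_le_exp.2
      have h8 : (j0 : ℝ) * (2 * Real.log g.d) ≤ θ * N * (2 * Real.log g.d) :=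
        mul_le_mul_of_nonneg_right hj0u (by positivity)
      have h9 : θ * N * (2 * Real.log g.d) = 2 * θ * Real.log g.d * N := by ring
      rw [h9] at h8
      exact h8.trans (mul_le_mul_of_nonneg_right hθc hN0)
    have h18 := hconv2 N Y hY hN2
    calc (A0.card : ℝ) ≤ cS * W * (g.d : ℝ) ^ (2 * j0) * V.card := h2
      _ ≤ cS * W * Real.exp (c / 2 * N) * (K2 * ((N + 1) * ((g.d : ℝ) ^ N * Real.exp (-(c * N))))) := by gcongr
      _ = cS * W * K2 * (((N : ℝ) + 1) * (Real.exp (-(c * N)) * Real.exp (c / 2 * N)) *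
          (g.d : ℝ) ^ N) := by ring
      _ = cS * W * K2 * (((N : ℝ) + 1) * Real.exp (-(c / 2 * N)) * (g.d : ℝ) ^ N) := by
          rw [← Real.exp_add]
          have : -(c * N) + c / 2 * N = -(c / 2 * N) := by ring
          rw [this]
      _ ≤ cS * W * K2 * (((N : ℝ) + 1) * Real.exp (-(c / 2 * N)) * Y) := by gcongr
      _ ≤ cS * W * K2 * (K4 * Y ^ (1 - δ2)) := by gcongr
      _ ≤ cS * W * K2 * (K4 * Y ^ (1 - δ)) := by gcongr
      _ = cS * K2 * K4 * W * Y ^ (1 - δ) := by ring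
  have hQ3 : (E3.card : ℝ) ≤ K3 * W * Y ^ (1 - δ) := by
    have h1 := hfew W f hW hS X Y hY E3 ((filter_subset _ _).trans hA) (fun n hn => (mem_filter.1 hn).2)
    refine h1.trans ?_
    gcongr
  have hcard' : (A.card : ℝ) ≤ E1.card + (A0.card + E3.card) := by exact_mod_cast hcard
  calc (A.card : ℝ) ≤ E1.card + (A0.card + E3.card) := hcard'
    _ ≤ K1 * W * Y ^ (1 - δ) + (cS * K2 * K4 * W * Y ^ (1 - δ) + K3 * W * Y ^ (1 - δ)) := by gcongr
    _ = (K1 + cS * K2 * K4 + K3) * (W * Y ^ (1 - δ)) := by ring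
    _ ≤ (K1 + cS * K2 * K4 + K3 + Y0) * (W * Y ^ (1 - δ)) := by
        apply mul_le_mul_of_nonneg_right _ (by positivity)
        linarith
    _ = _ := by ring

end Pool.Agent.T2H58.LU
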