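import Pool.Agent.T2H58.LU.Law
import Pool.Agent.T2H58.LR.Mo

/-! Möller's maps: the values of a sequence with well spread values in the exceptional set, uniformly in the sequence. -/

set_option autoImplicit false

namespace Pool.Agent.T2H58.LU

open Pool.Agent.T2H58.LR (desc_of_typ)

open Finset Pool.Agent.H319R2
open Pool.Agent.Y927.GP (Typ scale exp_pow)
open Pool.Agent.Y927.GP.Mo

variable {d m : ℕ} {r : ℤ → ℤ}

/-- Few `n` of an interval for which the `H`-orbit of `f n` has no small term. -/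
theorem desc_seq (hd : 2 ≤ d) (hm : 2 ≤ m) (hc : Nat.Coprime m d)
    (hle : (m : ℝ) ≤ (d : ℝ) ^ ((d : ℝ) / ((d : ℝ) - 1)))
    (hr : ∀ j : ℤ, 1 ≤ j → j < d → (d : ℤ) ∣ m * j - r j) {c : ℕ} (hc1 : 1 ≤ c) {ε : ℝ} (hε : 0 < ε) :
    ∃ δ K : ℝ, 0 < δ ∧ 0 < K ∧ ∀ (W : ℕ) (f : ℕ → ℤ), 1 ≤ W → SprU d c W f → ∀ (X : ℕ) (Y : ℝ), 1 ≤ Y → ∀ A : Finset ℕ,
      A ⊆ Ioc X (X + ⌊Y⌋₊) → (∀ n ∈ A, 0 < f n ∧ ¬ (d : ℤ) ∣ f n ∧ ∀ k : ℕ,
        Def d m r (f n) k → 0 < (H d m r)^[k] (f n) →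
          (f n : ℝ) * Y ^ (-kap d m + ε) < (((H d m r)^[k] (f n) : ℤ) : ℝ)) → (A.card : ℝ) ≤ K * W * Y ^ (1 - δ) := by
  classical
  -- we may suppose that `ε` is small
  obtain ⟨hκ0, hκ1⟩ := kap_bounds hd hm hc hle
  obtain ⟨κ, hκ⟩ : ∃ κ, κ = kap d m := ⟨_, rfl⟩
  rw [← hκ] at hκ0 hκ1
  set ε' : ℝ := min ε (1 - κ) with hε'
  have hε'0 : 0 < ε' := lt_min hε (by linarith)
  have hε'1 : ε' ≤ ε := min_le_left _ _
  have hε'2 : ε' ≤ 1 - κ := min_le_right _ _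
  have D := data (r := r) hd hc hr
  have hC := cls (m := m) (r := r) hd
  have hmu := mu_kap hd D
  have hd1 : (1 : ℝ) < d := by exact_mod_cast (by omega : 1 < d)
  have hd0 : (0 : ℝ) < d := by linarith
  obtain ⟨δ, K, hδ0, hδ1, hK, hmain⟩ := law_main (Leigh.gm_fac D) (Leigh.gm_cls D hC) hc1 hκ0.le
    (by rw [hmu, ← hκ]; linarith) hκ1 (ε := ε' / 2) (by positivity)
  obtain ⟨δ3, K3, hδ30, hδ31, hK3, hfew⟩ := few hd hc1 (ε := ε') hε'0 (by linarith) ((bd d r : ℝ) + 1) (by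
    have : (0 : ℝ) ≤ (bd d r : ℝ) := Nat.cast_nonneg _
    linarith)
  obtain ⟨Y0, hY0⟩ := Filter.eventually_atTop.1 ((tendsto_rpow_atTop (show 0 < ε' / 2 by positivity)).eventually_ge_atTop ((d : ℝ) ^ κ))
  set δ' : ℝ := min δ δ3 with hδ'
  have hδ'0 : 0 < δ' := lt_min hδ0 hδ30
  have hδ'a : δ' ≤ δ := min_le_left _ _
  have hδ'b : δ' ≤ δ3 := min_le_right _ _
  refine ⟨δ', K + K3 + max Y0 1, hδ'0, by positivity, ?_⟩
  intro W f hW hS X Y hY A hA hE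
  have hWr : (1 : ℝ) ≤ W := by exact_mod_cast hW
  have hYp : 0 < Y := by linarith
  have hY1 : 1 ≤ Y ^ (1 - δ') := Real.one_le_rpow hY (by linarith)
  rcases lt_or_ge Y Y0 with hsmall | hbig
  · have h1 : (A.card : ℝ) ≤ Y := by
      have h2 := Finset.card_le_card hA
      rw [Nat.card_Ioc] at h2
      have h3 : X + ⌊Y⌋₊ - X = ⌊Y⌋₊ := by omega
      rw [h3] at h2
      have h4 : (A.card : ℝ) ≤ ⌊Y⌋₊ := by exact_mod_cast h2
      exact h4.trans (Nat.floor_le hYp.le)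
    have h5 : Y ≤ max Y0 1 := hsmall.le.trans (le_max_left _ _)
    calc (A.card : ℝ) ≤ max Y0 1 * 1 := by linarith
      _ ≤ max Y0 1 * Y ^ (1 - δ') := by gcongr
      _ ≤ (K + K3 + max Y0 1) * Y ^ (1 - δ') := by
          apply mul_le_mul_of_nonneg_right _ (by positivity)
          linarith
      _ ≤ _ := by
          apply mul_le_mul_of_nonneg_right _ (by positivity)
          exact le_mul_of_one_le_right (by positivity) hWr
  set A1 := A.filter (fun n : ℕ => |((f n : ℤ) : ℝ)| ≤ ((bd d r : ℝ) + 1) * Y ^ (1 - ε')) with hA1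
  set A2 := A.filter (fun n : ℕ => ¬ |((f n : ℤ) : ℝ)| ≤ ((bd d r : ℝ) + 1) * Y ^ (1 - ε')) with hA2
  have h1 : (A1.card : ℝ) ≤ K3 * W * Y ^ (1 - δ') := by
    have h2 := hfew W f hW hS X Y hY A1 ((filter_subset _ _).trans hA) (fun n hn => (mem_filter.1 hn).2)
    refine h2.trans ?_
    gcongr
  have h2 : (A2.card : ℝ) ≤ K * W * Y ^ (1 - δ') := by
    have h3 : (A2.card : ℝ) ≤ K * W * Y ^ (1 - δ) := by
      apply hmain W f hW hS X Y hY A2 ((filter_subset _ _).trans hA)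
      intro n hn
      rw [hA2, mem_filter] at hn
      obtain ⟨hnA, hnZ⟩ := hn
      push Not at hnZ
      obtain ⟨hy0, hyd, hno⟩ := hE n hnA
      refine ⟨mem_S hd _, fun htyp => ?_⟩
      rw [hmu] at htyp
      have hyr : (0 : ℝ) < (f n : ℝ) := by exact_mod_cast hy0
      rw [abs_of_pos hyr] at hnZ
      obtain ⟨k, hk1, hk2, hk3⟩ := desc_of_typ hd hm hc hle hr D (ε := ε') hY (by
        rw [← hκ]; exact hY0 Y hbig) hy0 hyd (by
        rw [← hκ]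
        have h4 : (bd d r : ℝ) ≤ ((bd d r : ℝ) + 1) * Y ^ (1 - ε') * Y ^ (-κ + ε') := by
          rw [mul_assoc, ← Real.rpow_add hYp]
          have e : 1 - ε' + (-κ + ε') = 1 - κ := by ring
          rw [e]
          have h5 : 1 ≤ Y ^ (1 - κ) := Real.one_le_rpow hY (by linarith)
          have h6 : (0 : ℝ) ≤ (bd d r : ℝ) := Nat.cast_nonneg _
          nlinarith
        refine h4.trans ?_
        gcongr) htyp
      have h7 := hno k hk1 hk2
      rw [← hκ] at hk3 h7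
      have h8 : (f n : ℝ) * Y ^ (-κ + ε') ≤ (f n : ℝ) * Y ^ (-κ + ε) := by
        apply mul_le_mul_of_nonneg_left _ hyr.le
        exact Real.rpow_le_rpow_of_exponent_le hY (by linarith)
      linarith
    refine h3.trans ?_
    gcongr
  have h3 : A1.card + A2.card = A.card := Finset.card_filter_add_card_filter_not _
  have h4 : (A.card : ℝ) = A1.card + A2.card := by rw [← h3]; push_cast; rfl
  rw [h4]
  have h5 : 0 ≤ max Y0 1 * W * Y ^ (1 - δ') := by positivity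
  calc (A1.card : ℝ) + A2.card ≤ K3 * W * Y ^ (1 - δ') + K * W * Y ^ (1 - δ') := add_le_add h1 h2
    _ ≤ K3 * W * Y ^ (1 - δ') + K * W * Y ^ (1 - δ') + max Y0 1 * W * Y ^ (1 - δ') := by linarith
    _ = (K + K3 + max Y0 1) * W * Y ^ (1 - δ') := by ring

/-- Few `n` of an interval for which `f n` is in the exceptional set. -/
theorem exc_seq (hd : 2 ≤ d) (hm : 2 ≤ m) (hc : Nat.Coprime m d)
    (hle : (m : ℝ) ≤ (d : ℝ) ^ ((d : ℝ) / ((d : ℝ) - 1)))
    (hr : ∀ j : ℤ, 1 ≤ j → j < d → (d : ℤ) ∣ m * j - r j) {c : ℕ} (hc1 : 1 ≤ c) :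
    ∃ δ K : ℝ, 0 < δ ∧ 0 < K ∧ ∀ (W : ℕ) (f : ℕ → ℤ), 1 ≤ W → SprU d c W f → ∀ (X : ℕ) (Y : ℝ), 1 ≤ Y → ∀ A : Finset ℕ,
      A ⊆ Ioc X (X + ⌊Y⌋₊) → (∀ n ∈ A, f n ∈ E d m r) → (A.card : ℝ) ≤ K * W * Y ^ (1 - δ) := by
  classical
  obtain ⟨hκ0, hκ1⟩ := kap_bounds hd hm hc hle
  obtain ⟨δ, K, hδ0, hK, h⟩ := desc_seq hd hm hc hle hr hc1 (ε := kap d m / 2) (by linarith)
  refine ⟨min δ 1, K + 1, lt_min hδ0 one_pos, by positivity, fun W f hW hS X Y hY A hA hE => ?_⟩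
  have hWr : (1 : ℝ) ≤ W := by exact_mod_cast hW
  have hYp : 0 < Y := by linarith
  rcases eq_or_lt_of_le hY with h1 | h1
  · subst_vars
    have h2 := Finset.card_le_card hA
    rw [Nat.card_Ioc] at h2
    have h3 : (A.card : ℝ) ≤ 1 := by
      have : A.card ≤ 1 := by
        refine h2.trans ?_
        simp
      exact_mod_cast this
    rw [Real.one_rpow]
    nlinarith
  have h2 := h W f hW hS X Y hY A hA (by
    intro n hn
    obtain ⟨hy0, hyd, hEy⟩ := hE n hn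
    refine ⟨hy0, hyd, fun k hk1 hk2 => ?_⟩
    have hyr : (0 : ℝ) < (f n : ℝ) := by exact_mod_cast hy0
    have h3 : f n ≤ (H d m r)^[k] (f n) := by
      rcases Nat.eq_zero_or_pos k with h0 | h0
      · subst h0; simp
      · exact hEy k h0 hk1
    have h4 : (f n : ℝ) ≤ (((H d m r)^[k] (f n) : ℤ) : ℝ) := by exact_mod_cast h3
    refine lt_of_lt_of_le ?_ h4
    have h5 : Y ^ (-kap d m + kap d m / 2) < 1 := Real.rpow_lt_one_of_one_lt_of_neg h1 (by linarith)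
    nlinarith)
  refine h2.trans ?_
  have h3 : Y ^ (1 - δ) ≤ Y ^ (1 - min δ 1) := by
    apply Real.rpow_le_rpow_of_exponent_le hY
    have := min_le_left δ 1
    linarith
  have h4 : 0 ≤ Y ^ (1 - min δ 1) := by positivity
  calc K * W * Y ^ (1 - δ) ≤ K * W * Y ^ (1 - min δ 1) := by gcongr
    _ ≤ (K + 1) * W * Y ^ (1 - min δ 1) := by gcongr; linarith

end Pool.Agent.T2H58.LU
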