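import Pool.Agent.T2H58.LU.Fib

/-! Sequences of integer parts of smooth functions: from dyadic blocks to `[1, X]`. -/

set_option autoImplicit false

namespace Pool.Agent.T2H58.LU

open Finset

/-- From dyadic blocks to initial segments. -/
theorem dyad {bad : ℕ → Prop} [DecidablePred bad] {δ K : ℝ} (hδ : δ < 1) (hK : 0 ≤ K) {X1 : ℕ} (hX1 : 1 ≤ X1)
    (h : ∀ X : ℕ, X1 ≤ X → (((Ioc X (2 * X)).filter bad).card : ℝ) ≤ K * (X : ℝ) ^ (1 - δ)) (X : ℕ) (hX : 1 ≤ X) :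
    (((Ioc 0 X).filter bad).card : ℝ) ≤ (K / ((4 / 3 : ℝ) ^ (1 - δ) - 1) + 2 * X1) * (X : ℝ) ^ (1 - δ) := by
  have ha : 0 < (4 / 3 : ℝ) ^ (1 - δ) - 1 := by
    have := Real.one_lt_rpow (show (1 : ℝ) < 4 / 3 by norm_num) (show 0 < 1 - δ by linarith)
    linarith
  obtain ⟨a, hadef⟩ : ∃ a, a = (4 / 3 : ℝ) ^ (1 - δ) - 1 := ⟨_, rfl⟩
  rw [← hadef] at ha ⊢
  obtain ⟨K', hK'⟩ : ∃ K', K' = K / a + 2 * X1 := ⟨_, rfl⟩
  rw [← hK']
  have hX1r : (1 : ℝ) ≤ X1 := by exact_mod_cast hX1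
  have hK'0 : 0 ≤ K' := by rw [hK']; positivity
  have hKa : K ≤ K' * a := by
    rw [hK', add_mul, div_mul_cancel₀ _ ha.ne']
    have : 0 ≤ 2 * (X1 : ℝ) * a := by positivity
    linarith
  induction X using Nat.strong_induction_on with
  | _ X ih =>
    have hXr : (1 : ℝ) ≤ X := by exact_mod_cast hX
    have hX1' : (1 : ℝ) ≤ (X : ℝ) ^ (1 - δ) := Real.one_le_rpow hXr (by linarith)
    rcases le_or_gt X (2 * X1) with h1 | h1
    · have h2 : ((Ioc 0 X).filter bad).card ≤ X := by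
        refine (card_le_card (filter_subset _ _)).trans ?_
        rw [Nat.card_Ioc]; omega
      have h3 : (((Ioc 0 X).filter bad).card : ℝ) ≤ 2 * X1 := by exact_mod_cast h2.trans h1
      have h4 : 2 * (X1 : ℝ) ≤ K' := by
        rw [hK']
        have : 0 ≤ K / a := by positivity
        linarith
      calc (((Ioc 0 X).filter bad).card : ℝ) ≤ K' * 1 := by rw [mul_one]; exact h3.trans h4
        _ ≤ K' * (X : ℝ) ^ (1 - δ) := mul_le_mul_of_nonneg_left hX1' hK'0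
    · obtain ⟨X', hX'⟩ : ∃ X', X' = (X + 1) / 2 := ⟨_, rfl⟩
      have h2 : X1 ≤ X' := by omega
      have h3 : X' < X := by omega
      have h5 : X ≤ 2 * X' := by omega
      have h6 : 4 * X' ≤ 3 * X := by omega
      have hsub : (Ioc 0 X).filter bad ⊆ (Ioc 0 X').filter bad ∪ (Ioc X' (2 * X')).filter bad := by
        intro n hn
        rw [mem_filter, mem_Ioc] at hn
        rw [mem_union, mem_filter, mem_filter, mem_Ioc, mem_Ioc]
        rcases le_or_gt n X' with h7 | h7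
        · exact Or.inl ⟨⟨hn.1.1, h7⟩, hn.2⟩
        · exact Or.inr ⟨⟨h7, hn.1.2.trans h5⟩, hn.2⟩
      have h7 := (card_le_card hsub).trans (card_union_le _ _)
      have h8 : (((Ioc 0 X).filter bad).card : ℝ) ≤ ((Ioc 0 X').filter bad).card + ((Ioc X' (2 * X')).filter bad).card := by
        exact_mod_cast h7
      have h9 := ih X' h3 (by omega)
      have h10 := h X' h2
      have hX'r : (0 : ℝ) ≤ X' := Nat.cast_nonneg _
      have h11 : (X' : ℝ) * (4 / 3) ≤ X := by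
        have : (4 : ℝ) * X' ≤ 3 * X := by exact_mod_cast h6
        linarith
      have h12 : (X' : ℝ) ^ (1 - δ) * (1 + a) ≤ (X : ℝ) ^ (1 - δ) := by
        have e : 1 + a = (4 / 3 : ℝ) ^ (1 - δ) := by rw [hadef]; ring
        rw [e, ← Real.mul_rpow hX'r (by norm_num)]
        exact Real.rpow_le_rpow (by positivity) h11 (by linarith)
      calc (((Ioc 0 X).filter bad).card : ℝ) ≤ K' * (X' : ℝ) ^ (1 - δ) + K * (X' : ℝ) ^ (1 - δ) := h8.trans (add_le_add h9 h10)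
        _ ≤ K' * (X' : ℝ) ^ (1 - δ) + K' * a * (X' : ℝ) ^ (1 - δ) := by gcongr
        _ = K' * ((X' : ℝ) ^ (1 - δ) * (1 + a)) := by ring
        _ ≤ K' * (X : ℝ) ^ (1 - δ) := by gcongr

/-- `f` is `k` times differentiable on `[x₀, ∞)` and, up to the sign, its `k`-th derivative is nonincreasing there, at most
`A` times its value at twice the argument and between `x ^ (-2 + η)` and `x ^ (-η)`. -/
def Regular (k : ℕ) (x₀ η A : ℝ) (f : ℝ → ℝ) : Prop :=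
  ∃ F : ℕ → ℝ → ℝ, F 0 = f ∧ (∀ j < k, ∀ x, x₀ ≤ x → HasDerivAt (F j) (F (j + 1) x) x) ∧
    ∃ s : ℝ, (s = 1 ∨ s = -1) ∧ (∀ x, x₀ ≤ x → x ^ (-2 + η) ≤ s * F k x ∧ s * F k x ≤ x ^ (-η) ∧
      s * F k x ≤ A * (s * F k (2 * x))) ∧ ∀ x y, x₀ ≤ x → x ≤ y → s * F k y ≤ s * F k x

theorem smooth_main (d : ℕ) (hd : 2 ≤ d) (k : ℕ) (hk : 2 ≤ k) (x₀ : ℝ) (η : ℝ) (hη : 0 < η) (hη1 : η < 1) (A : ℝ)
    (hA : 1 ≤ A) : ∃ θ : ℝ, 0 < θ ∧ θ ≤ 1 ∧ ∀ bad' : ℝ → ℤ → Prop,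
      (∃ δ K : ℝ, 0 < δ ∧ δ < 1 ∧ 0 < K ∧ ∀ (f : ℕ → ℤ) (S : Finset ℕ) (M Y : ℝ), 1 ≤ Y → 0 ≤ M → ClsLe d f S M Y →
        (∀ n ∈ S, bad' Y (f n)) → (S.card : ℝ) ≤ K * M * Y ^ (1 - δ)) →
      ∀ bad : ℕ → ℤ → Prop, (∀ (X n : ℕ) (v : ℤ), 2 ≤ X → X < n → n ≤ 2 * X → bad n v → bad' ((X : ℝ) ^ θ) v) →
      ∃ δ K : ℝ, 0 < δ ∧ 0 < K ∧ ∀ f : ℝ → ℝ, Regular k x₀ η A f → ∀ X : ℝ, 1 ≤ X →
        ({n : ℕ | 1 ≤ n ∧ (n : ℝ) ≤ X ∧ bad n ⌊f n⌋}.ncard : ℝ) ≤ K * X ^ (1 - δ) := by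
  classical
  obtain ⟨θ, hθ, hθ1, C, hC, hcls⟩ := cls_block d hd k hk A hA (η / 2) (by linarith) (by linarith)
  refine ⟨θ, hθ, hθ1, ?_⟩
  rintro bad' ⟨δ0, K0, hδ0, hδ01, hK0, hmain⟩ bad hbad
  obtain ⟨δ, hδdef⟩ : ∃ δ, δ = θ * δ0 := ⟨_, rfl⟩
  have hδ : 0 < δ := by rw [hδdef]; positivity
  have hδ1 : δ < 1 := by rw [hδdef]; nlinarith
  obtain ⟨X1, hX1def⟩ : ∃ X1 : ℕ, X1 = max (max ⌈x₀⌉₊ ⌈(4 : ℝ) ^ (2 / η)⌉₊) 2 := ⟨_, rfl⟩
  have hX12 : 2 ≤ X1 := by rw [hX1def]; exact le_max_right _ _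
  have hX1a : x₀ ≤ X1 := by
    have h1 : ⌈x₀⌉₊ ≤ X1 := by rw [hX1def]; exact (le_max_left _ _).trans (le_max_left _ _)
    have h2 : (⌈x₀⌉₊ : ℝ) ≤ X1 := by exact_mod_cast h1
    exact (Nat.le_ceil x₀).trans h2
  have hX1b : (4 : ℝ) ^ (2 / η) ≤ X1 := by
    have h1 : ⌈(4 : ℝ) ^ (2 / η)⌉₊ ≤ X1 := by rw [hX1def]; exact (le_max_right _ _).trans (le_max_left _ _)
    have h2 : (⌈(4 : ℝ) ^ (2 / η)⌉₊ : ℝ) ≤ X1 := by exact_mod_cast h1
    exact (Nat.le_ceil _).trans h2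
  have hX1r : (2 : ℝ) ≤ X1 := by exact_mod_cast hX12
  have ha : 0 < (4 / 3 : ℝ) ^ (1 - δ) - 1 := by
    have := Real.one_lt_rpow (show (1 : ℝ) < 4 / 3 by norm_num) (show 0 < 1 - δ by linarith)
    linarith
  obtain ⟨K1, hK1⟩ : ∃ K1, K1 = (K0 * C) / ((4 / 3 : ℝ) ^ (1 - δ) - 1) + 2 * X1 := ⟨_, rfl⟩
  have hK10 : 0 < K1 := by rw [hK1]; positivity
  refine ⟨δ, K1, hδ, hK10, ?_⟩
  rintro f ⟨F, hF0, hder, s, hs, hF, hanti⟩ X hX
  have hblock : ∀ X : ℕ, X1 ≤ X → (((Ioc X (2 * X)).filter (fun n => bad n ⌊f n⌋)).card : ℝ) ≤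
      K0 * C * (X : ℝ) ^ (1 - δ) := by
    intro X hXX
    have hXr : (X1 : ℝ) ≤ X := by exact_mod_cast hXX
    have hX2 : (2 : ℝ) ≤ X := hX1r.trans hXr
    have hXp : (0 : ℝ) < X := by linarith
    have hx0 : x₀ ≤ X := hX1a.trans hXr
    have hB : Blk k A F X s (s * F k (2 * X)) := by
      refine ⟨fun j hj x hx => hder j hj x (hx0.trans hx.1), hs, fun x hx => hanti x _ (hx0.trans hx.1) hx.2, ?_, ?_⟩
      · intro x hx
        exact (hanti X x hx0 hx.1).trans (hF X hx0).2.2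
      · intro x hx y hy hxy
        exact hanti x y (hx0.trans hx.1) hxy
    have h2X := hF (2 * X) (by linarith)
    have h4 : (4 : ℝ) ≤ (X : ℝ) ^ (η / 2) := by
      have h5 : ((4 : ℝ) ^ (2 / η)) ^ (η / 2) ≤ (X : ℝ) ^ (η / 2) :=
        Real.rpow_le_rpow (by positivity) (hX1b.trans hXr) (by linarith)
      rw [← Real.rpow_mul (by norm_num)] at h5
      have e : 2 / η * (η / 2) = 1 := by field_simp
      rwa [e, Real.rpow_one] at h5
    have h5 := hcls X F s (s * F k (2 * X)) (by omega) hB (by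
      refine le_trans ?_ h2X.1
      rw [Real.mul_rpow (by norm_num) hXp.le]
      have h6 : (2 : ℝ) ^ (-2 : ℝ) ≤ 2 ^ (-2 + η) := Real.rpow_le_rpow_of_exponent_le (by norm_num) (by linarith)
      have h7 : (2 : ℝ) ^ (-2 : ℝ) = 1 / 4 := by
        rw [Real.rpow_neg (by norm_num)]
        norm_num
      have h8 : (X : ℝ) ^ (-2 + η) = (X : ℝ) ^ (-2 + η / 2) * (X : ℝ) ^ (η / 2) := by
        rw [← Real.rpow_add hXp]; congr 1; ring
      have h9 : 0 < (X : ℝ) ^ (-2 + η / 2) := Real.rpow_pos_of_pos hXp _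
      rw [h7] at h6
      calc (X : ℝ) ^ (-2 + η / 2) = 1 / 4 * ((X : ℝ) ^ (-2 + η / 2) * 4) := by ring
        _ ≤ 1 / 4 * ((X : ℝ) ^ (-2 + η / 2) * (X : ℝ) ^ (η / 2)) := by gcongr
        _ = 1 / 4 * (X : ℝ) ^ (-2 + η) := by rw [h8]
        _ ≤ 2 ^ (-2 + η) * (X : ℝ) ^ (-2 + η) := by gcongr) (by
      refine h2X.2.1.trans ?_
      calc (2 * (X : ℝ)) ^ (-η) ≤ (X : ℝ) ^ (-η) := Real.rpow_le_rpow_of_nonpos hXp (by linarith) (by linarith)
        _ ≤ (X : ℝ) ^ (-(η / 2)) := Real.rpow_le_rpow_of_exponent_le (by linarith) (by linarith))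
    rw [hF0] at h5
    have h6 := hmain (fun n : ℕ => ⌊f n⌋) ((Ioc X (2 * X)).filter (fun n => bad n ⌊f n⌋)) (C * (X : ℝ) ^ (1 - θ))
      ((X : ℝ) ^ θ) (Real.one_le_rpow (by linarith) hθ.le) (by positivity) (h5.mono (filter_subset _ _)) (by
        intro n hn
        rw [mem_filter, mem_Ioc] at hn
        exact hbad X n _ (by omega) hn.1.1 hn.1.2 hn.2)
    refine h6.trans (le_of_eq ?_)
    rw [← Real.rpow_mul hXp.le]
    have e : (X : ℝ) ^ (1 - δ) = (X : ℝ) ^ (1 - θ) * (X : ℝ) ^ (θ * (1 - δ0)) := by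
      rw [← Real.rpow_add hXp, hδdef]; congr 1; ring
    rw [e]; ring
  have hXf : 1 ≤ ⌊X⌋₊ := Nat.le_floor (by simpa using hX)
  have h1 := dyad hδ1 (by positivity) (by omega : 1 ≤ X1) hblock ⌊X⌋₊ hXf
  have h2 : {n : ℕ | 1 ≤ n ∧ (n : ℝ) ≤ X ∧ bad n ⌊f n⌋} = ((Ioc 0 ⌊X⌋₊).filter (fun n => bad n ⌊f n⌋) : Finset ℕ) := by
    ext n
    simp only [Set.mem_ofPred_eq, coe_filter, mem_Ioc]
    constructor
    · rintro ⟨h1, h2, h3⟩
      exact ⟨⟨by omega, Nat.le_floor h2⟩, h3⟩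
    · rintro ⟨⟨h1, h2⟩, h3⟩
      exact ⟨by omega, (Nat.le_floor_iff (by linarith)).1 h2, h3⟩
  rw [h2, Set.ncard_coe_finset]
  refine h1.trans ?_
  rw [← hK1]
  apply mul_le_mul_of_nonneg_left _ hK10.le
  exact Real.rpow_le_rpow (Nat.cast_nonneg _) (Nat.floor_le (by linarith)) (by linarith)

open Polynomial in
/-- Real powers are regular. -/
theorem regular_rpow (α : ℝ) (hα : α ≠ 0) (c : ℝ) (hc : 0 < c) (hcn : ∀ n : ℕ, c ≠ n) :
    ∃ x₀ η : ℝ, 0 < η ∧ η < 1 ∧ ∀ P : ℝ[X], P.natDegree ≤ ⌊c⌋₊ + 1 →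
      Regular (⌊c⌋₊ + 2) x₀ η 4 (fun x => α * x ^ c + P.eval x) := by
  obtain ⟨k, hk⟩ : ∃ k, k = ⌊c⌋₊ + 2 := ⟨_, rfl⟩
  obtain ⟨φ, hφ⟩ : ∃ φ, φ = c - ⌊c⌋₊ := ⟨_, rfl⟩
  have hφ0 : 0 < φ := by
    have h1 := Nat.floor_le hc.le
    have h2 := hcn ⌊c⌋₊
    rcases lt_or_eq_of_le h1 with h3 | h3
    · linarith
    · exact absurd h3.symm h2
  have hφ1 : φ < 1 := by have := Nat.lt_floor_add_one c; linarith
  have hkc : c - k = -2 + φ := by rw [hk, hφ]; push_cast; ring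
  obtain ⟨W, hW⟩ : ∃ W : ℕ → ℝ, W = fun j => ∏ i ∈ range j, (c - i) := ⟨_, rfl⟩
  have hWs : ∀ j, W (j + 1) = W j * (c - j) := by intro j; rw [hW]; exact prod_range_succ _ _
  have hW0 : W 0 = 1 := by rw [hW]; simp
  have hWk : W k ≠ 0 := by
    rw [hW]
    exact prod_ne_zero_iff.2 fun i _ => sub_ne_zero.2 (hcn i)
  obtain ⟨s, hs⟩ : ∃ s : ℝ, s = if 0 < α * W k then 1 else -1 := ⟨_, rfl⟩
  have hs1 : s = 1 ∨ s = -1 := by rw [hs]; split_ifs <;> simp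
  obtain ⟨a, ha⟩ : ∃ a, a = |α * W k| := ⟨_, rfl⟩
  have ha0 : 0 < a := by rw [ha]; exact abs_pos.2 (mul_ne_zero hα hWk)
  have hsa : s * (α * W k) = a := by
    rw [hs, ha]
    split_ifs with h
    · rw [abs_of_pos h, one_mul]
    · rw [abs_of_nonpos (not_lt.1 h)]; ring
  obtain ⟨b, hb⟩ : ∃ b, b = max a (1 / a) := ⟨_, rfl⟩
  have hb1 : 1 ≤ b := by
    rw [hb]
    rcases le_total 1 a with h | h
    · exact h.trans (le_max_left _ _)
    · refine le_trans ?_ (le_max_right _ _)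
      rw [le_div_iff₀ ha0]; linarith
  have hba : a ≤ b := by rw [hb]; exact le_max_left _ _
  have hba' : 1 / a ≤ b := by rw [hb]; exact le_max_right _ _
  refine ⟨b ^ (2 / φ), φ / 2, by linarith, by linarith, fun P hP => ?_⟩
  have hx1 : ∀ x : ℝ, b ^ (2 / φ) ≤ x → 1 ≤ x := fun x hx => (Real.one_le_rpow hb1 (by positivity)).trans hx
  have hxb : ∀ x : ℝ, b ^ (2 / φ) ≤ x → b ≤ x ^ (φ / 2) := by
    intro x hx
    have h5 : (b ^ (2 / φ)) ^ (φ / 2) ≤ x ^ (φ / 2) := Real.rpow_le_rpow (by positivity) hx (by linarith)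
    rw [← Real.rpow_mul (by linarith)] at h5
    have e : 2 / φ * (φ / 2) = 1 := by field_simp
    rwa [e, Real.rpow_one] at h5
  have hval : ∀ x : ℝ, s * (α * W k * x ^ (c - k) + (derivative^[k] P).eval x) = a * x ^ (-2 + φ) := by
    intro x
    rw [iterate_derivative_eq_zero (by omega), eval_zero, add_zero, ← mul_assoc, hsa, hkc]
  rw [← hk]
  refine ⟨fun j x => α * W j * x ^ (c - j) + (derivative^[j] P).eval x, ?_, ?_, s, hs1, ?_, ?_⟩
  · funext x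
    simp [hW0]
  · intro j hj x hx
    have hx0 : 0 < x := by linarith [hx1 x hx]
    have h1 := (Real.hasDerivAt_rpow_const (x := x) (p := c - j) (Or.inl hx0.ne')).const_mul (α * W j)
    have h2 := (derivative^[j] P).hasDerivAt x
    have h3 := h1.add h2
    have e : α * W (j + 1) * x ^ (c - ((j + 1 : ℕ) : ℝ)) + (derivative^[j + 1] P).eval x =
        α * W j * ((c - j) * x ^ (c - j - 1)) + (derivative (derivative^[j] P)).eval x := by
      rw [hWs, Function.iterate_succ_apply']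
      have e2 : c - ((j + 1 : ℕ) : ℝ) = c - j - 1 := by push_cast; ring
      rw [e2]; ring
    show HasDerivAt (fun x => α * W j * x ^ (c - j) + (derivative^[j] P).eval x)
      (α * W (j + 1) * x ^ (c - ((j + 1 : ℕ) : ℝ)) + (derivative^[j + 1] P).eval x) x
    rw [e]
    exact h3
  · intro x hx
    have hx1' := hx1 x hx
    have hx0 : 0 < x := by linarith
    have hxb' := hxb x hx
    simp only [hval]
    have h0 : 0 < x ^ (-2 + φ) := Real.rpow_pos_of_pos hx0 _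
    refine ⟨?_, ?_, ?_⟩
    · have e : x ^ (-2 + φ) = x ^ (-2 + φ / 2) * x ^ (φ / 2) := by rw [← Real.rpow_add hx0]; congr 1; ring
      rw [e]
      have h1 : 1 ≤ a * x ^ (φ / 2) := by
        have : 1 / a ≤ x ^ (φ / 2) := hba'.trans hxb'
        rw [div_le_iff₀ ha0] at this
        linarith
      have h2 : 0 < x ^ (-2 + φ / 2) := Real.rpow_pos_of_pos hx0 _
      nlinarith
    · calc a * x ^ (-2 + φ) ≤ x ^ (φ / 2) * x ^ (-2 + φ) := by
            apply mul_le_mul_of_nonneg_right (hba.trans hxb') h0.le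
        _ = x ^ (φ / 2 + (-2 + φ)) := by rw [← Real.rpow_add hx0]
        _ ≤ x ^ (-(φ / 2)) := Real.rpow_le_rpow_of_exponent_le hx1' (by linarith)
    · rw [Real.mul_rpow (by norm_num) hx0.le]
      have h6 : (2 : ℝ) ^ (-2 : ℝ) ≤ 2 ^ (-2 + φ) := Real.rpow_le_rpow_of_exponent_le (by norm_num) (by linarith)
      have h7 : (2 : ℝ) ^ (-2 : ℝ) = 1 / 4 := by
        rw [Real.rpow_neg (by norm_num)]
        norm_num
      rw [h7] at h6
      have h8 : 0 < a * x ^ (-2 + φ) := by positivity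
      calc a * x ^ (-2 + φ) = 4 * (1 / 4) * (a * x ^ (-2 + φ)) := by ring
        _ ≤ 4 * 2 ^ (-2 + φ) * (a * x ^ (-2 + φ)) := by gcongr
        _ = 4 * (a * (2 ^ (-2 + φ) * x ^ (-2 + φ))) := by ring
  · intro x y hx hxy
    simp only [hval]
    have hx0 : 0 < x := by linarith [hx1 x hx]
    apply mul_le_mul_of_nonneg_left _ ha0.le
    exact Real.rpow_le_rpow_of_nonpos hx0 hxy (by linarith)

/-- The functions `α x log x + β x + γ` are regular. -/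
theorem regular_log (α : ℝ) (hα : α ≠ 0) : ∃ x₀ : ℝ, ∀ β γ : ℝ, Regular 2 x₀ (1 / 2) 4 (fun x => α * (x * Real.log x) + β * x + γ) := by
  obtain ⟨s, hs⟩ : ∃ s : ℝ, s = if 0 < α then 1 else -1 := ⟨_, rfl⟩
  have hs1 : s = 1 ∨ s = -1 := by rw [hs]; split_ifs <;> simp
  obtain ⟨a, ha⟩ : ∃ a, a = |α| := ⟨_, rfl⟩
  have ha0 : 0 < a := by rw [ha]; exact abs_pos.2 hα
  have hsa : s * α = a := by
    rw [hs, ha]
    split_ifs with h
    · rw [abs_of_pos h, one_mul]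
    · rw [abs_of_nonpos (not_lt.1 h)]; ring
  obtain ⟨b, hb⟩ : ∃ b, b = max a (1 / a) := ⟨_, rfl⟩
  have hb1 : 1 ≤ b := by
    rw [hb]
    rcases le_total 1 a with h | h
    · exact h.trans (le_max_left _ _)
    · refine le_trans ?_ (le_max_right _ _)
      rw [le_div_iff₀ ha0]; linarith
  have hba : a ≤ b := by rw [hb]; exact le_max_left _ _
  have hba' : 1 / a ≤ b := by rw [hb]; exact le_max_right _ _
  refine ⟨b ^ (2 : ℝ), fun β γ => ?_⟩
  have hx1 : ∀ x : ℝ, b ^ (2 : ℝ) ≤ x → 1 ≤ x := fun x hx => (Real.one_le_rpow hb1 (by positivity)).trans hx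
  have hxb : ∀ x : ℝ, b ^ (2 : ℝ) ≤ x → b ≤ x ^ (1 / 2 : ℝ) := by
    intro x hx
    have h5 : (b ^ (2 : ℝ)) ^ (1 / 2 : ℝ) ≤ x ^ (1 / 2 : ℝ) := Real.rpow_le_rpow (by positivity) hx (by norm_num)
    rw [← Real.rpow_mul (by linarith)] at h5
    norm_num at h5
    simpa using h5
  refine ⟨fun j x => if j = 0 then α * (x * Real.log x) + β * x + γ else if j = 1 then α * (Real.log x + 1) + β else
    α * x⁻¹, rfl, ?_, s, hs1, ?_, ?_⟩
  · intro j hj x hx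
    have hx0 : 0 < x := by linarith [hx1 x hx]
    interval_cases j
    · simp only [if_true, zero_add, one_ne_zero, if_false]
      have h1 : HasDerivAt (fun x : ℝ => x * Real.log x) (Real.log x + 1) x := by
        have h2 := (hasDerivAt_id x).mul (Real.hasDerivAt_log hx0.ne')
        have e : Real.log x + 1 = 1 * Real.log x + id x * x⁻¹ := by simp [hx0.ne']
        rw [e]
        exact h2
      have h3 := ((h1.const_mul α).add ((hasDerivAt_id x).const_mul β)).add_const γ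
      simpa using h3
    · simp only [if_true, one_ne_zero, if_false]
      norm_num
      have h1 := (Real.hasDerivAt_log hx0.ne').add_const 1 |>.const_mul α
      exact h1
  · intro x hx
    have hx1' := hx1 x hx
    have hx0 : 0 < x := by linarith
    have hxb' := hxb x hx
    simp only [show ¬ (2 : ℕ) = 0 by norm_num, show ¬ (2 : ℕ) = 1 by norm_num, if_false]
    have e : ∀ y : ℝ, s * (α * y⁻¹) = a * y⁻¹ := by intro y; rw [← mul_assoc, hsa]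
    rw [e, e]
    have h0 : 0 < x⁻¹ := inv_pos.2 hx0
    have h1 : x ^ (1 / 2 : ℝ) * x ^ (1 / 2 : ℝ) = x := by rw [← Real.rpow_add hx0]; norm_num
    have h2 : 0 < x ^ (1 / 2 : ℝ) := Real.rpow_pos_of_pos hx0 _
    have h3 : x ^ (-2 + 1 / 2 : ℝ) = x⁻¹ * (x ^ (1 / 2 : ℝ))⁻¹ := by
      rw [← Real.rpow_neg hx0.le, ← Real.rpow_neg_one, ← Real.rpow_add hx0]; norm_num
    have h4 : x ^ (-(1 / 2) : ℝ) = x⁻¹ * x ^ (1 / 2 : ℝ) := by
      rw [← Real.rpow_neg_one, ← Real.rpow_add hx0]; norm_num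
    refine ⟨?_, ?_, ?_⟩
    · rw [h3, mul_comm a]
      apply mul_le_mul_of_nonneg_left _ h0.le
      rw [inv_le_comm₀ h2 ha0]
      rw [← one_div]
      exact hba'.trans hxb'
    · rw [h4, mul_comm a]
      exact mul_le_mul_of_nonneg_left (hba.trans hxb') h0.le
    · rw [mul_inv]
      have : 0 < a * x⁻¹ := by positivity
      nlinarith
  · intro x y hx hxy
    have hx0 : 0 < x := by linarith [hx1 x hx]
    simp only [show ¬ (2 : ℕ) = 0 by norm_num, show ¬ (2 : ℕ) = 1 by norm_num, if_false]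
    rw [← mul_assoc, ← mul_assoc, hsa]
    apply mul_le_mul_of_nonneg_left _ ha0.le
    exact inv_anti₀ hx0 hxy

end Pool.Agent.T2H58.LU
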